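import Mathlib

/-!
The logarithmic potential of a continuous density on a segment of the imaginary axis,
shifted a little to the left.
-/

set_option autoImplicit false

open Complex Filter Topology Metric Set MeasureTheory intervalIntegral

namespace Pool.Agent.V7H88.NM

/-- the potential -/
noncomputable def Pan (ν : ℝ → ℝ) (H e : ℝ) (z : ℂ) : ℂ :=
  (1 / Real.pi : ℝ) * ∫ y in (-H)..H, (ν y : ℂ) * Complex.log (z + e - y * I)

lemma slit {z : ℂ} {e : ℝ} (he : 0 < z.re + e) (y : ℝ) : z + e - y * I ∈ slitPlane := by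
  left
  simp
  linarith

lemma cont_log {z : ℂ} {e : ℝ} (he : 0 < z.re + e) {ν : ℝ → ℝ} (hν : Continuous ν) :
    Continuous (fun y : ℝ => (ν y : ℂ) * Complex.log (z + e - y * I)) := by
  refine (Complex.continuous_ofReal.comp hν).mul ?_
  exact Continuous.clog (by fun_prop) (fun y => slit he y)

lemma cont_inv {z : ℂ} {e : ℝ} (he : 0 < z.re + e) {ν : ℝ → ℝ} (hν : Continuous ν) :
    Continuous (fun y : ℝ => (ν y : ℂ) * (z + e - y * I)⁻¹) := by
  refine (Complex.continuous_ofReal.comp hν).mul ?_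
  exact Continuous.inv₀ (by fun_prop) (fun y => slitPlane_ne_zero (slit he y))

lemma Pan_deriv {ν : ℝ → ℝ} (hν : Continuous ν) {H e : ℝ} (hH : 0 ≤ H) {z : ℂ} (he : 0 < z.re + e) :
    HasDerivAt (Pan ν H e) ((1 / Real.pi : ℝ) * ∫ y in (-H)..H, (ν y : ℂ) * (z + e - y * I)⁻¹) z := by
  unfold Pan
  apply HasDerivAt.const_mul
  obtain ⟨B, hB⟩ := (isCompact_uIcc (a := -H) (b := H)).exists_bound_of_continuousOn hν.continuousOn
  set d : ℝ := (z.re + e) / 2 with hd
  have hd0 : 0 < d := by positivity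
  have hball : ∀ w ∈ ball z d, d ≤ w.re + e := by
    intro w hw
    have h1 := Complex.abs_re_le_norm (w - z)
    rw [mem_ball, dist_eq_norm] at hw
    have h2 := abs_le.1 (h1.trans hw.le)
    rw [Complex.sub_re] at h2
    linarith
  refine (intervalIntegral.hasDerivAt_integral_of_dominated_loc_of_deriv_le (s := ball z d)
    (F := fun (z : ℂ) (y : ℝ) => (ν y : ℂ) * Complex.log (z + e - y * I))
    (F' := fun (z : ℂ) (y : ℝ) => (ν y : ℂ) * (z + e - y * I)⁻¹) (bound := fun _ => B * (1 / d))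
    (ball_mem_nhds z hd0) ?_ ?_ ?_ ?_ ?_ ?_).2
  · filter_upwards [ball_mem_nhds z hd0] with w hw
    exact (cont_log (by linarith [hball w hw]) hν).aestronglyMeasurable
  · exact (cont_log he hν).intervalIntegrable _ _
  · exact (cont_inv he hν).aestronglyMeasurable
  · refine Eventually.of_forall fun y hy w hw => ?_
    have h1 := hball w hw
    have h2 : d ≤ ‖w + e - y * I‖ := by
      have := Complex.re_le_norm (w + e - y * I)
      simp at this
      linarith
    rw [norm_mul, norm_inv, Complex.norm_real]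
    have h3 := hB y (uIoc_subset_uIcc hy)
    have h4 : ‖w + e - y * I‖⁻¹ ≤ 1 / d := by
      rw [one_div]
      exact inv_anti₀ hd0 h2
    exact mul_le_mul h3 h4 (by positivity) ((norm_nonneg _).trans h3)
  · exact intervalIntegrable_const
  · refine Eventually.of_forall fun y _ w hw => ?_
    have h1 := hball w hw
    have h2 : HasDerivAt (fun w : ℂ => w + e - y * I) 1 w := by
      simpa using ((hasDerivAt_id w).add_const (e : ℂ)).sub_const ((y : ℂ) * I)
    have h3 := h2.clog (slit (by linarith) y)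
    have h4 := h3.const_mul (ν y : ℂ)
    simpa [one_div] using h4

lemma re_integral {f : ℝ → ℂ} {a b : ℝ} (hf : IntervalIntegrable f volume a b) :
    (∫ y in a..b, f y).re = ∫ y in a..b, (f y).re := by
  have := Complex.reCLM.intervalIntegral_comp_comm hf
  simpa using this.symm

lemma Pan_re {ν : ℝ → ℝ} (hν : Continuous ν) {H e : ℝ} {z : ℂ} (he : 0 < z.re + e) :
    (Pan ν H e z).re = 1 / Real.pi * ∫ y in (-H)..H, ν y * Real.log ‖z + e - y * I‖ := by
  unfold Pan
  rw [Complex.re_ofReal_mul, re_integral ((cont_log he hν).intervalIntegrable _ _)]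
  congr 1
  refine intervalIntegral.integral_congr fun y _ => ?_
  show ((ν y : ℂ) * Complex.log (z + e - y * I)).re = ν y * Real.log ‖z + e - y * I‖
  rw [Complex.re_ofReal_mul, Complex.log_re]

lemma cont_lognorm {z : ℂ} {e : ℝ} (he : 0 < z.re + e) {ν : ℝ → ℝ} (hν : Continuous ν) :
    Continuous (fun y : ℝ => ν y * Real.log ‖z + e - y * I‖) := by
  refine hν.mul ?_
  refine Continuous.log (by fun_prop) (fun y => ?_)
  exact norm_ne_zero_iff.2 (slitPlane_ne_zero (slit he y))

/-- bounds of the potential -/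
lemma Pan_upper {ν : ℝ → ℝ} (hν : Continuous ν) (hν0 : ∀ y, 0 ≤ ν y) {H e D : ℝ} (hH : 0 ≤ H) {z : ℂ}
    (he : 0 < z.re + e) (hD : ∀ y ∈ Icc (-H) H, ‖z + e - y * I‖ ≤ D) :
    (Pan ν H e z).re ≤ 1 / Real.pi * (Real.log D * ∫ y in (-H)..H, ν y) := by
  rw [Pan_re hν he]
  apply mul_le_mul_of_nonneg_left _ (by positivity)
  rw [← intervalIntegral.integral_const_mul]
  refine intervalIntegral.integral_mono_on (by linarith) ((cont_lognorm he hν).intervalIntegrable _ _)
    ((hν.const_mul (Real.log D)).intervalIntegrable _ _) fun y hy => ?_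
  have h1 := norm_pos_iff.2 (slitPlane_ne_zero (slit he y))
  have h2 : Real.log ‖z + e - y * I‖ ≤ Real.log D := Real.log_le_log h1 (hD y hy)
  rw [mul_comm]
  exact mul_le_mul_of_nonneg_right h2 (hν0 y)

lemma Pan_lower {ν : ℝ → ℝ} (hν : Continuous ν) (hν0 : ∀ y, 0 ≤ ν y) {H e x : ℝ} (hH : 0 ≤ H) {z : ℂ}
    (he : 0 ≤ e) (hx : 0 < x) (hxz : x ≤ z.re) :
    1 / Real.pi * (Real.log x * ∫ y in (-H)..H, ν y) ≤ (Pan ν H e z).re := by
  rw [Pan_re hν (by linarith)]
  apply mul_le_mul_of_nonneg_left _ (by positivity)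
  rw [← intervalIntegral.integral_const_mul]
  refine intervalIntegral.integral_mono_on (by linarith) ((hν.const_mul (Real.log x)).intervalIntegrable _ _)
    ((cont_lognorm (by linarith) hν).intervalIntegrable _ _) fun y hy => ?_
  have h1 : x ≤ ‖z + e - y * I‖ := by
    have := Complex.re_le_norm (z + e - y * I)
    simp at this
    linarith
  have h2 : Real.log x ≤ Real.log ‖z + e - y * I‖ := Real.log_le_log hx h1
  rw [mul_comm]
  exact mul_le_mul_of_nonneg_left h2 (hν0 y)

/-- the real part of the derivative on the imaginary axis is a Poisson integral -/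
lemma deriv_re {ν : ℝ → ℝ} (hν : Continuous ν) {H e : ℝ} (he : 0 < e) (t : ℝ) :
    (((1 / Real.pi : ℝ) : ℂ) * ∫ y in (-H)..H, (ν y : ℂ) * ((t * I : ℂ) + e - y * I)⁻¹).re =
      1 / Real.pi * ∫ y in (-H)..H, ν y * (e / (e ^ 2 + (y - t) ^ 2)) := by
  rw [Complex.re_ofReal_mul, re_integral ((cont_inv (z := t * I) (by simpa using he) hν).intervalIntegrable _ _)]
  congr 1
  refine intervalIntegral.integral_congr fun y _ => ?_
  show ((ν y : ℂ) * ((t * I : ℂ) + e - y * I)⁻¹).re = ν y * (e / (e ^ 2 + (y - t) ^ 2))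
  rw [Complex.re_ofReal_mul, Complex.inv_re, Complex.normSq_apply]
  congr 1
  have e1 : ((t * I : ℂ) + e - y * I).re = e := by simp
  have e2 : ((t * I : ℂ) + e - y * I).im = t - y := by simp
  rw [e1, e2]
  congr 1
  ring

lemma poisson_int {e ρ t : ℝ} (he : 0 < e) :
    ∫ y in (t - ρ)..(t + ρ), e / (e ^ 2 + (y - t) ^ 2) = 2 * Real.arctan (ρ / e) := by
  have hd : ∀ y ∈ uIcc (t - ρ) (t + ρ), HasDerivAt (fun y => Real.arctan ((y - t) / e))
      (e / (e ^ 2 + (y - t) ^ 2)) y := by
    intro y _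
    have h1 : HasDerivAt (fun y : ℝ => (y - t) / e) (1 / e) y := by
      simpa using ((hasDerivAt_id y).sub_const t).div_const e
    have h2 := h1.arctan
    refine h2.congr_deriv ?_
    field_simp
  rw [integral_eq_sub_of_hasDerivAt hd]
  · have e1 : (t + ρ - t) / e = ρ / e := by ring
    have e2 : (t - ρ - t) / e = -(ρ / e) := by ring
    rw [e1, e2, Real.arctan_neg]
    ring
  · apply Continuous.intervalIntegrable
    refine Continuous.div (by fun_prop) (by fun_prop) (fun y => ?_)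
    positivity

/-- the Poisson integral of a continuous density is close to it -/
lemma poisson_lower {ν : ℝ → ℝ} (hν : Continuous ν) (hν0 : ∀ y, 0 ≤ ν y) {H : ℝ} (hH : 0 ≤ H) :
    ∃ e : ℝ, 0 < e ∧ e ≤ 1 ∧ ∀ t ∈ Icc (-H) H,
      ν t - 1 ≤ 1 / Real.pi * ∫ y in (-(H + 1))..(H + 1), ν y * (e / (e ^ 2 + (y - t) ^ 2)) := by
  have hpi := Real.pi_pos
  have huc : UniformContinuousOn ν (Icc (-(H + 1)) (H + 1)) :=
    isCompact_Icc.uniformContinuousOn_of_continuous hν.continuousOn
  obtain ⟨B, hB⟩ := (isCompact_Icc (a := -(H + 1)) (b := H + 1)).exists_bound_of_continuousOn hν.continuousOn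
  rw [Metric.uniformContinuousOn_iff] at huc
  obtain ⟨ρ₀, hρ₀, huc⟩ := huc (1 / 2) (by norm_num)
  set ρ : ℝ := min (ρ₀ / 2) 1 with hρ
  have hρ0 : 0 < ρ := lt_min (by positivity) one_pos
  have hρ1 : ρ ≤ 1 := min_le_right _ _
  have hρ2 : ρ < ρ₀ := lt_of_le_of_lt (min_le_left _ _) (by linarith)
  -- choice of `e`
  have hlim : Tendsto (fun e : ℝ => (|B| + 1) * (1 - 2 / Real.pi * Real.arctan (ρ / e))) (𝓝[>] 0) (𝓝 0) := by
    have h1 : Tendsto (fun e : ℝ => ρ / e) (𝓝[>] 0) atTop := by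
      have := tendsto_inv_nhdsGT_zero (𝕜 := ℝ)
      simpa [div_eq_mul_inv] using this.const_mul_atTop hρ0
    have h2 : Tendsto (fun e : ℝ => Real.arctan (ρ / e)) (𝓝[>] 0) (𝓝 (Real.pi / 2)) :=
      (Real.tendsto_arctan_atTop.mono_right nhdsWithin_le_nhds).comp h1
    have h3 := ((h2.const_mul (2 / Real.pi)).const_sub 1).const_mul (|B| + 1)
    have e1 : (|B| + 1) * (1 - 2 / Real.pi * (Real.pi / 2)) = 0 := by field_simp; ring
    rwa [e1] at h3
  have hev := (hlim.eventually (gt_mem_nhds (show (0:ℝ) < 1 / 2 by norm_num))).and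
    ((Ioo_mem_nhdsGT (show (0:ℝ) < 1 by norm_num)))
  obtain ⟨e, he1, he2⟩ := hev.exists
  have he0 : 0 < e := he2.1
  refine ⟨e, he0, he2.2.le, fun t ht => ?_⟩
  have hcont : Continuous (fun y : ℝ => ν y * (e / (e ^ 2 + (y - t) ^ 2))) := by
    refine hν.mul (Continuous.div (by fun_prop) (by fun_prop) (fun y => ?_))
    positivity
  have hker0 : ∀ y : ℝ, 0 ≤ e / (e ^ 2 + (y - t) ^ 2) := fun y => by positivity
  have hsub : Icc (t - ρ) (t + ρ) ⊆ Icc (-(H + 1)) (H + 1) := by
    intro y hy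
    exact ⟨by linarith [hy.1, ht.1], by linarith [hy.2, ht.2]⟩
  have h1 : ∫ y in (t - ρ)..(t + ρ), ν y * (e / (e ^ 2 + (y - t) ^ 2)) ≤
      ∫ y in (-(H + 1))..(H + 1), ν y * (e / (e ^ 2 + (y - t) ^ 2)) := by
    refine intervalIntegral.integral_mono_interval (by linarith [ht.1]) (by linarith) (by linarith [ht.2]) ?_
      (hcont.intervalIntegrable _ _)
    refine Eventually.of_forall fun y => ?_
    exact mul_nonneg (hν0 y) (hker0 y)
  have hA0 : 0 ≤ Real.arctan (ρ / e) := Real.arctan_nonneg.2 (by positivity)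
  have hA1 : Real.arctan (ρ / e) ≤ Real.pi / 2 := (Real.arctan_lt_pi_div_two _).le
  have h2 : (ν t - 1 / 2) * (2 * Real.arctan (ρ / e)) ≤
      ∫ y in (t - ρ)..(t + ρ), ν y * (e / (e ^ 2 + (y - t) ^ 2)) := by
    rw [← poisson_int he0, ← intervalIntegral.integral_const_mul]
    refine intervalIntegral.integral_mono_on (by linarith) ?_ (hcont.intervalIntegrable _ _) fun y hy => ?_
    · apply Continuous.intervalIntegrable
      refine continuous_const.mul (Continuous.div (by fun_prop) (by fun_prop) (fun y => ?_))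
      positivity
    · apply mul_le_mul_of_nonneg_right _ (hker0 y)
      have h3 := huc y (hsub hy) t (hsub ⟨by linarith, by linarith⟩) (by
        rw [Real.dist_eq, abs_lt]
        constructor <;> linarith [hy.1, hy.2])
      rw [Real.dist_eq, abs_lt] at h3
      linarith [h3.1]
  have h3 : ν t ≤ |B| + 1 := by
    have h4 := hB t (hsub ⟨by linarith, by linarith⟩)
    rw [Real.norm_eq_abs] at h4
    linarith [le_abs_self (ν t), le_abs_self B]
  have h4 : (ν t - 1 / 2) * (1 - 2 / Real.pi * Real.arctan (ρ / e)) ≤ 1 / 2 := by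
    have h5 : 0 ≤ 1 - 2 / Real.pi * Real.arctan (ρ / e) := by
      have : 2 / Real.pi * Real.arctan (ρ / e) ≤ 2 / Real.pi * (Real.pi / 2) := by gcongr
      have e1 : 2 / Real.pi * (Real.pi / 2) = 1 := by field_simp
      linarith
    calc (ν t - 1 / 2) * (1 - 2 / Real.pi * Real.arctan (ρ / e))
        ≤ (|B| + 1) * (1 - 2 / Real.pi * Real.arctan (ρ / e)) := by
          apply mul_le_mul_of_nonneg_right _ h5
          linarith
      _ ≤ 1 / 2 := he1.le
  calc ν t - 1 ≤ (ν t - 1 / 2) - (ν t - 1 / 2) * (1 - 2 / Real.pi * Real.arctan (ρ / e)) := by linarith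
    _ = 1 / Real.pi * ((ν t - 1 / 2) * (2 * Real.arctan (ρ / e))) := by ring
    _ ≤ _ := by
        apply mul_le_mul_of_nonneg_left (h2.trans h1) (by positivity)

end Pool.Agent.V7H88.NM
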