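import Mathlib
import Pool.Agent.V7H88.NM.A

/-!
A maximum principle of Neumann type on a rectangle.
-/

set_option autoImplicit false
set_option maxHeartbeats 1000000

open Complex Filter Topology Metric Set MeasureTheory

namespace Pool.Agent.V7H88.NM

/-- if the real part of a function is at most its value at zero to the right of zero, its
derivative is nonpositive -/
lemma deriv_nonpos {r : ℝ → ℝ} {d a : ℝ} (ha : 0 < a) (hr : HasDerivAt r d 0)
    (hm : ∀ x ∈ Icc 0 a, r x ≤ r 0) : d ≤ 0 := by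
  have h1 := (hasDerivAt_iff_tendsto_slope.1 hr)
  have h2 : Tendsto (slope r 0) (𝓝[>] 0) (𝓝 d) :=
    h1.mono_left (nhdsWithin_mono _ fun x (hx : 0 < x) => ne_of_gt hx)
  refine le_of_tendsto h2 ?_
  filter_upwards [Ioo_mem_nhdsGT ha] with x hx
  rw [slope_def_field]
  apply div_nonpos_of_nonpos_of_nonneg
  · linarith [hm x ⟨hx.1.le, hx.2.le⟩]
  · linarith [hx.1]

lemma rect_frontier {a H : ℝ} (ha : 0 < a) (hH : 0 < H) {z : ℂ}
    (hz : z ∈ frontier (Ioo 0 a ×ℂ Ioo (-H) H)) :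
    (z.re ∈ Icc 0 a ∧ z.im ∈ Icc (-H) H) ∧ (z.re = 0 ∨ z.re = a ∨ z.im = H ∨ z.im = -H) := by
  have hopen : IsOpen (Ioo (0:ℝ) a ×ℂ Ioo (-H) H) := isOpen_Ioo.reProdIm isOpen_Ioo
  rw [frontier, hopen.interior_eq, Complex.closure_reProdIm, closure_Ioo ha.ne,
    closure_Ioo (by linarith : -H ≠ H)] at hz
  obtain ⟨hz1, hz2⟩ := hz
  rw [mem_reProdIm] at hz1
  refine ⟨hz1, ?_⟩
  by_contra hcon
  push Not at hcon
  apply hz2
  rw [mem_reProdIm]
  exact ⟨⟨lt_of_le_of_ne hz1.1.1 (Ne.symm hcon.1), lt_of_le_of_ne hz1.1.2 hcon.2.1⟩,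
    ⟨lt_of_le_of_ne hz1.2.1 (Ne.symm hcon.2.2.2), lt_of_le_of_ne hz1.2.2 hcon.2.2.1⟩⟩

/-- **the maximum principle with a one-sided Neumann condition** -/
lemma neumann_max {f : ℂ → ℂ} {a H : ℝ} (ha : 0 < a) (hH : 0 < H)
    (hf : ∀ z : ℂ, z.re ∈ Icc 0 a → z.im ∈ Icc (-H) H → AnalyticAt ℂ f z)
    {k : ℝ → ℝ} (hk : Continuous k)
    (hkf : ∀ y ∈ Icc (-H) H, f (y * I) ≠ 0 → k y = (logDeriv f (y * I)).re)
    {β K MR ME : ℝ} (hβ : 0 ≤ β) (hK : 0 ≤ K)
    (hR : ∀ z : ℂ, z.re = a → z.im ∈ Icc (-H) H → ‖f z‖ ≤ MR)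
    (hE : ∀ z : ℂ, z.re ∈ Icc 0 a → (z.im = H ∨ z.im = -H) → ‖f z‖ ≤ ME)
    {x Dm : ℝ} (hx0 : 0 < x) (hxa : x ≤ a) (hDm : 2 * H + a + 3 ≤ Dm) :
    ‖f x‖ ≤ max MR (ME * Real.exp (-(K * H ^ 2))) *
      Real.exp (1 / Real.pi * ((Real.log Dm - Real.log x) * ∫ y in (-(H + 1))..(H + 1), max 0 (-k y - β)) +
        (β + 3) * (a - x) + K * a ^ 2) := by
  set M : ℝ := max MR (ME * Real.exp (-(K * H ^ 2))) with hM
  have hMR0 : 0 ≤ MR := (norm_nonneg _).trans (hR ⟨a, 0⟩ rfl ⟨by simpa using hH.le, hH.le⟩)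
  have hM0 : 0 ≤ M := hMR0.trans (le_max_left _ _)
  rcases eq_or_ne (f x) 0 with hfx | hfx
  · rw [hfx, norm_zero]
    positivity
  set ν : ℝ → ℝ := fun y => max 0 (-k y - β) with hν
  have hνc : Continuous ν := continuous_const.max (hk.neg.sub continuous_const)
  have hν0 : ∀ y, 0 ≤ ν y := fun y => le_max_left _ _
  obtain ⟨e, he0, he1, hpois⟩ := poisson_lower hνc hν0 hH.le
  set P : ℂ → ℂ := Pan ν (H + 1) e with hP
  set N : ℝ := ∫ y in (-(H + 1))..(H + 1), ν y with hN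
  have hN0 : 0 ≤ N := intervalIntegral.integral_nonneg (by linarith) fun y _ => hν0 y
  set G : ℂ → ℂ := fun z => P z + ((β + 3 : ℝ) : ℂ) * z + (K : ℂ) * z ^ 2 with hG
  set F : ℂ → ℂ := fun z => f z * Complex.exp (G z) with hF
  have hGd : ∀ z : ℂ, 0 ≤ z.re → HasDerivAt G ((1 / Real.pi : ℝ) *
      (∫ y in (-(H + 1))..(H + 1), (ν y : ℂ) * (z + e - y * I)⁻¹) + ((β + 3 : ℝ) : ℂ) + (K : ℂ) * (2 * z)) z := by
    intro z hz
    have h1 := Pan_deriv hνc (H := H + 1) (e := e) (by linarith) (z := z) (by linarith)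
    have h2 : HasDerivAt (fun z : ℂ => ((β + 3 : ℝ) : ℂ) * z) ((β + 3 : ℝ) : ℂ) z := by
      simpa using (hasDerivAt_id z).const_mul ((β + 3 : ℝ) : ℂ)
    have h3 : HasDerivAt (fun z : ℂ => (K : ℂ) * z ^ 2) ((K : ℂ) * (2 * z)) z := by
      simpa using (hasDerivAt_pow 2 z).const_mul (K : ℂ)
    exact (h1.add h2).add h3
  have hFd : ∀ z : ℂ, z.re ∈ Icc 0 a → z.im ∈ Icc (-H) H → DifferentiableAt ℂ F z := by
    intro z h1 h2
    exact (hf z h1 h2).differentiableAt.mul (hGd z h1.1).differentiableAt.cexp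
  set U : Set ℂ := Ioo 0 a ×ℂ Ioo (-H) H with hU
  have hclU : closure U = Icc 0 a ×ℂ Icc (-H) H := by
    rw [hU, Complex.closure_reProdIm, closure_Ioo ha.ne, closure_Ioo (by linarith : -H ≠ H)]
  have hUb : Bornology.IsBounded U := (isBounded_Ioo _ _).reProdIm (isBounded_Ioo _ _)
  have hUn : U.Nonempty := ⟨⟨a / 2, 0⟩, by
    rw [hU, mem_reProdIm]
    exact ⟨⟨by simpa using ha, by simp; linarith⟩, ⟨by simpa using hH, by simpa using hH⟩⟩⟩
  have hdc : DiffContOnCl ℂ F U := by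
    constructor
    · intro z hz
      rw [hU, mem_reProdIm] at hz
      exact (hFd z (Ioo_subset_Icc_self hz.1) (Ioo_subset_Icc_self hz.2)).differentiableWithinAt
    · intro z hz
      rw [hclU, mem_reProdIm] at hz
      exact (hFd z hz.1 hz.2).continuousAt.continuousWithinAt
  obtain ⟨z₀, hz₀f, hz₀m⟩ := Complex.exists_mem_frontier_isMaxOn_norm hUb hUn hdc
  obtain ⟨⟨hzre, hzim⟩, hcase⟩ := rect_frontier ha hH hz₀f
  have hmax : ∀ z : ℂ, z.re ∈ Icc 0 a → z.im ∈ Icc (-H) H → ‖F z‖ ≤ ‖F z₀‖ := by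
    intro z h1 h2
    apply hz₀m
    rw [hclU, mem_reProdIm]
    exact ⟨h1, h2⟩
  have hx' : ‖F x‖ ≤ ‖F z₀‖ := hmax x ⟨by simpa using hx0.le, by simpa using hxa⟩
    ⟨by simpa using hH.le, by simpa using hH.le⟩
  have hFx0 : F x ≠ 0 := mul_ne_zero hfx (Complex.exp_ne_zero _)
  have hFz0 : F z₀ ≠ 0 := by
    rw [← norm_pos_iff]
    exact lt_of_lt_of_le (norm_pos_iff.2 hFx0) hx'
  have hfz0 : f z₀ ≠ 0 := fun h => hFz0 (by simp [hF, h])
  have hnorm : ∀ z : ℂ, ‖F z‖ = ‖f z‖ * Real.exp ((P z).re + (β + 3) * z.re + K * (z.re ^ 2 - z.im ^ 2)) := by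
    intro z
    simp only [hF]
    rw [norm_mul, Complex.norm_exp]
    congr 2
    simp only [hG]
    rw [Complex.add_re, Complex.add_re, Complex.re_ofReal_mul, Complex.re_ofReal_mul]
    congr 2
    rw [pow_two, Complex.mul_re]
    ring
  -- the left edge is excluded
  have hleft : z₀.re ≠ 0 := by
    intro h0
    set y₀ : ℝ := z₀.im with hy₀
    have hz₀e : z₀ = (y₀ : ℂ) * I := by
      apply Complex.ext <;> simp [h0, hy₀]
    have h1 : HasDerivAt F (F z₀ * (logDeriv f z₀ + ((1 / Real.pi : ℝ) *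
        (∫ y in (-(H + 1))..(H + 1), (ν y : ℂ) * (z₀ + e - y * I)⁻¹) + ((β + 3 : ℝ) : ℂ) + (K : ℂ) * (2 * z₀)))) z₀ := by
      have h2 := (hf z₀ hzre hzim).differentiableAt.hasDerivAt.mul (hGd z₀ hzre.1).cexp
      refine h2.congr_deriv ?_
      simp only [hF]
      rw [logDeriv_apply]
      generalize ((1 / Real.pi : ℝ) : ℂ) *
        (∫ y in (-(H + 1))..(H + 1), (ν y : ℂ) * (z₀ + e - y * I)⁻¹) + ((β + 3 : ℝ) : ℂ) + (K : ℂ) * (2 * z₀) = g'
      have e5 : deriv f z₀ = f z₀ * (deriv f z₀ / f z₀) := by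
        field_simp
      generalize deriv f z₀ / f z₀ = q at e5 ⊢
      rw [e5]
      ring
    set L : ℂ := logDeriv f z₀ + ((1 / Real.pi : ℝ) *
        (∫ y in (-(H + 1))..(H + 1), (ν y : ℂ) * (z₀ + e - y * I)⁻¹) + ((β + 3 : ℝ) : ℂ) + (K : ℂ) * (2 * z₀)) with hL
    have h3 : HasDerivAt (fun t : ℝ => F (z₀ + t) / F z₀) L 0 := by
      have h4 : HasDerivAt F (F z₀ * L) (z₀ + ((0:ℝ) : ℂ)) := by simpa using h1
      have h5 : HasDerivAt (fun t : ℝ => z₀ + (t : ℂ)) 1 (0:ℝ) := by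
        simpa using (Complex.ofRealCLM.hasDerivAt (x := (0:ℝ))).const_add z₀
      have h6 := (h4.comp (0:ℝ) h5).div_const (F z₀)
      refine h6.congr_deriv ?_
      field_simp
    have h7 : HasDerivAt (fun t : ℝ => (F (z₀ + t) / F z₀).re) L.re 0 := by
      exact (Complex.reCLM.hasFDerivAt (x := F (z₀ + ((0:ℝ):ℂ)) / F z₀)).comp_hasDerivAt (0:ℝ) h3
    have h8 : L.re ≤ 0 := by
      refine deriv_nonpos ha h7 fun t ht => ?_
      have h9 : ‖F (z₀ + t)‖ ≤ ‖F z₀‖ := by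
        apply hmax
        · rw [Complex.add_re, h0, Complex.ofReal_re, zero_add]
          exact ht
        · rw [Complex.add_im, Complex.ofReal_im, add_zero]
          exact hzim
      have h10 : (F (z₀ + ((0:ℝ):ℂ)) / F z₀).re = 1 := by
        rw [Complex.ofReal_zero, add_zero, div_self hFz0, Complex.one_re]
      show (F (z₀ + t) / F z₀).re ≤ (F (z₀ + ((0:ℝ):ℂ)) / F z₀).re
      rw [h10]
      refine (Complex.re_le_norm _).trans ?_
      rw [norm_div, div_le_one (norm_pos_iff.2 hFz0)]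
      exact h9
    have h11 : L.re = k y₀ + 1 / Real.pi * (∫ y in (-(H + 1))..(H + 1), ν y * (e / (e ^ 2 + (y - y₀) ^ 2))) +
        (β + 3) := by
      rw [hL, Complex.add_re, Complex.add_re, Complex.add_re]
      have e1 : (logDeriv f z₀).re = k y₀ := by
        rw [hkf y₀ hzim (by rwa [← hz₀e]), ← hz₀e]
      have e2 : ((K : ℂ) * (2 * z₀)).re = 0 := by
        rw [hz₀e]
        simp
      rw [e1, e2, Complex.ofReal_re, hz₀e, deriv_re hνc he0 y₀]
      ring
    have h12 := hpois y₀ hzim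
    have h13 : -k y₀ - β ≤ ν y₀ := le_max_right _ _
    rw [h11] at h8
    linarith
  -- the other edges
  have hDm0 : 0 < Dm := by linarith
  have hPup : (P z₀).re ≤ 1 / Real.pi * (Real.log Dm * N) := by
    refine Pan_upper hνc hν0 (by linarith) (by linarith [hzre.1]) fun y hy => ?_
    have e1 : ‖z₀ + e - y * I‖ ≤ |(z₀ + e - y * I).re| + |(z₀ + e - y * I).im| := Complex.norm_le_abs_re_add_abs_im _
    have e2 : (z₀ + e - y * I).re = z₀.re + e := by simp
    have e3 : (z₀ + e - y * I).im = z₀.im - y := by simp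
    rw [e2, e3] at e1
    have e4 : |z₀.re + e| ≤ a + 1 := by
      rw [abs_of_nonneg (by linarith [hzre.1])]
      linarith [hzre.2]
    have e5 : |z₀.im - y| ≤ 2 * H + 1 := by
      rw [abs_le]
      constructor <;> linarith [hzim.1, hzim.2, hy.1, hy.2]
    linarith
  have hPlow : 1 / Real.pi * (Real.log x * N) ≤ (P x).re :=
    Pan_lower hνc hν0 (by linarith) he0.le hx0 (by simp)
  have hbd : ‖F z₀‖ ≤ M * Real.exp (1 / Real.pi * (Real.log Dm * N) + (β + 3) * a + K * a ^ 2) := by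
    rw [hnorm z₀]
    have hsq : z₀.re ^ 2 ≤ a ^ 2 := by
      have := hzre.1
      have := hzre.2
      gcongr
    have hb3 : (β + 3) * z₀.re ≤ (β + 3) * a := by
      apply mul_le_mul_of_nonneg_left hzre.2
      linarith
    rcases hcase with h | h | h
    · exact absurd h hleft
    · apply mul_le_mul ((hR z₀ h hzim).trans (le_max_left _ _)) _ (Real.exp_pos _).le hM0
      apply Real.exp_le_exp.2
      have : K * (z₀.re ^ 2 - z₀.im ^ 2) ≤ K * a ^ 2 := by
        apply mul_le_mul_of_nonneg_left _ hK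
        linarith [sq_nonneg z₀.im]
      linarith
    · have h1 := hE z₀ hzre h
      have h2 : z₀.im ^ 2 = H ^ 2 := by
        rcases h with h | h <;> rw [h] <;> ring
      rw [h2]
      have h3 : Real.exp ((P z₀).re + (β + 3) * z₀.re + K * (z₀.re ^ 2 - H ^ 2)) ≤
          Real.exp (-(K * H ^ 2)) * Real.exp (1 / Real.pi * (Real.log Dm * N) + (β + 3) * a + K * a ^ 2) := by
        rw [← Real.exp_add]
        apply Real.exp_le_exp.2
        have : K * z₀.re ^ 2 ≤ K * a ^ 2 := mul_le_mul_of_nonneg_left hsq hK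
        linarith
      calc ‖f z₀‖ * Real.exp ((P z₀).re + (β + 3) * z₀.re + K * (z₀.re ^ 2 - H ^ 2))
          ≤ ME * (Real.exp (-(K * H ^ 2)) * Real.exp (1 / Real.pi * (Real.log Dm * N) + (β + 3) * a + K * a ^ 2)) := by
            apply mul_le_mul h1 h3 (Real.exp_pos _).le ((norm_nonneg _).trans h1)
        _ = (ME * Real.exp (-(K * H ^ 2))) * Real.exp (1 / Real.pi * (Real.log Dm * N) + (β + 3) * a + K * a ^ 2) := by
            ring
        _ ≤ _ := by
            apply mul_le_mul_of_nonneg_right (le_max_right _ _) (Real.exp_pos _).le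
  have hlow : ‖f x‖ * Real.exp (1 / Real.pi * (Real.log x * N) + (β + 3) * x) ≤ ‖F x‖ := by
    rw [hnorm x]
    apply mul_le_mul_of_nonneg_left _ (norm_nonneg _)
    apply Real.exp_le_exp.2
    rw [Complex.ofReal_re, Complex.ofReal_im]
    have : 0 ≤ K * (x ^ 2 - 0 ^ 2) := by
      have : 0 ≤ K * x ^ 2 := by positivity
      simpa using this
    linarith
  have hfin := hlow.trans (hx'.trans hbd)
  have e1 : ‖f x‖ = ‖f x‖ * Real.exp (1 / Real.pi * (Real.log x * N) + (β + 3) * x) *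
      Real.exp (-(1 / Real.pi * (Real.log x * N) + (β + 3) * x)) := by
    rw [mul_assoc, ← Real.exp_add, add_neg_cancel, Real.exp_zero, mul_one]
  rw [e1]
  calc ‖f x‖ * Real.exp (1 / Real.pi * (Real.log x * N) + (β + 3) * x) *
      Real.exp (-(1 / Real.pi * (Real.log x * N) + (β + 3) * x))
      ≤ M * Real.exp (1 / Real.pi * (Real.log Dm * N) + (β + 3) * a + K * a ^ 2) *
      Real.exp (-(1 / Real.pi * (Real.log x * N) + (β + 3) * x)) :=
        mul_le_mul_of_nonneg_right hfin (Real.exp_pos _).le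
    _ = M * Real.exp (1 / Real.pi * ((Real.log Dm - Real.log x) * N) + (β + 3) * (a - x) + K * a ^ 2) := by
        rw [mul_assoc, ← Real.exp_add]
        congr 2
        ring

end Pool.Agent.V7H88.NM
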