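import Mathlib
import Pool.Agent.V7H88.NM.B
import Pool.Agent.V7H88.BS.C
import Pool.Agent.H370R2.Local

/-!
The horizontal logarithmic derivative on a vertical line as a continuous function.
-/

set_option autoImplicit false
set_option maxHeartbeats 1000000

open Complex Filter Topology Metric Set MeasureTheory
open H370.Loc

namespace Pool.Agent.V7H88.NM

/-- the horizontal kernel -/
noncomputable def ker (x₀ : ℝ) (ρ : ℂ) (y : ℝ) : ℝ := (x₀ - ρ.re) / ((x₀ - ρ.re) ^ 2 + (y - ρ.im) ^ 2)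

lemma ker_cont (x₀ : ℝ) (ρ : ℂ) : Continuous (ker x₀ ρ) := by
  unfold ker
  by_cases h : x₀ - ρ.re = 0
  · simp only [h, zero_div]
    exact continuous_const
  · refine continuous_const.div (by fun_prop) (fun y => ?_)
    positivity

lemma ker_eq (z ρ : ℂ) : ((z - ρ)⁻¹).re = ker z.re ρ z.im := by
  rw [Complex.inv_re, Complex.normSq_apply, Complex.sub_re, Complex.sub_im, ker]
  congr 1
  ring

lemma Pf_logDeriv_sum {s : Multiset ℂ} {z : ℂ} (h : ∀ ρ ∈ s, z ≠ ρ) :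
    (logDeriv (Pf s) z).re = (s.map (fun ρ => ker z.re ρ z.im)).sum := by
  induction s using Multiset.induction_on with
  | empty =>
    have : Pf 0 = fun _ => (1 : ℂ) := funext Pf_zero
    rw [this]
    simp [logDeriv]
  | cons ρ s ih =>
    have h0 : Pf (ρ ::ₘ s) = fun z => (z - ρ) * Pf s z := funext (Pf_cons ρ s)
    have hz : z - ρ ≠ 0 := sub_ne_zero.2 (h ρ (Multiset.mem_cons_self ρ s))
    have hP : Pf s z ≠ 0 := Pf_ne_zero fun ρ' h' => h ρ' (Multiset.mem_cons_of_mem h')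
    have h1 : logDeriv (fun z => (z - ρ) * Pf s z) z =
        logDeriv (fun z => z - ρ) z + logDeriv (Pf s) z :=
      logDeriv_mul z hz hP (by fun_prop) (Pf_diff s z)
    have h2 : logDeriv (fun z => z - ρ) z = (z - ρ)⁻¹ := by
      rw [logDeriv_apply]
      have : deriv (fun z => z - ρ) z = 1 := by simp
      rw [this, one_div]
    rw [h0, h1, h2, Complex.add_re, ker_eq, Multiset.map_cons, Multiset.sum_cons,
      ih fun ρ' h' => h ρ' (Multiset.mem_cons_of_mem h')]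

lemma msum_cont (x₀ : ℝ) (s : Multiset ℂ) : Continuous (fun y : ℝ => (s.map (fun ρ => ker x₀ ρ y)).sum) := by
  induction s using Multiset.induction_on with
  | empty => simpa using continuous_const
  | cons ρ s ih =>
    simp only [Multiset.map_cons, Multiset.sum_cons]
    exact (ker_cont x₀ ρ).add ih

/-- the decomposition of the logarithmic derivative on a line -/
lemma decomp {f g : ℂ → ℂ} {s : Multiset ℂ} {z : ℂ} (hfg : ∀ z, f z = Pf s z * g z)
    (hg : AnalyticAt ℂ g z) (hz : f z ≠ 0) :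
    (logDeriv f z).re = (s.map (fun ρ => ker z.re ρ z.im)).sum + (logDeriv g z).re := by
  have h0 : f = fun z => Pf s z * g z := funext hfg
  have h1 : Pf s z * g z ≠ 0 := by rw [← hfg]; exact hz
  have hP : Pf s z ≠ 0 := left_ne_zero_of_mul h1
  have hg0 : g z ≠ 0 := right_ne_zero_of_mul h1
  have hne : ∀ ρ ∈ s, z ≠ ρ := by
    intro ρ hρ he
    apply hP
    obtain ⟨t, rfl⟩ := Multiset.exists_cons_of_mem hρ
    rw [Pf_cons, he, sub_self, zero_mul]
  rw [h0, logDeriv_mul z hP hg0 (Pf_diff s z) hg.differentiableAt, Complex.add_re, Pf_logDeriv_sum hne]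

lemma k_exists {f : ℂ → ℂ} {c : ℂ} {r R M : ℝ} (hr : 0 < r) (hrR : r < R) (hM : 1 ≤ M)
    (hf : AnalyticOnNhd ℂ f (closedBall c R)) (hc : f c ≠ 0)
    (hb : ∀ z ∈ closedBall c R, ‖f z‖ ≤ M) {x₀ y₁ y₂ : ℝ} (h12 : y₁ ≤ y₂)
    (hseg : ∀ y ∈ Icc y₁ y₂, (⟨x₀, y⟩ : ℂ) ∈ closedBall c r) :
    ∃ k : ℝ → ℝ, Continuous k ∧
      (∀ y ∈ Icc y₁ y₂, f ⟨x₀, y⟩ ≠ 0 → k y = (logDeriv f ⟨x₀, y⟩).re) ∧
      {y : ℝ | y ∈ Icc y₁ y₂ ∧ f ⟨x₀, y⟩ = 0}.Finite := by
  classical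
  obtain ⟨s, g, h1, h2, h3, h4, -⟩ := extract hr hrR hM hf hc hb
  set k₀ : ℝ → ℝ := fun y => (s.map (fun ρ => ker x₀ ρ y)).sum + (logDeriv g ⟨x₀, y⟩).re with hk₀
  have hgan : ∀ y ∈ Icc y₁ y₂, AnalyticAt ℂ g ⟨x₀, y⟩ := fun y hy =>
    h2 _ (closedBall_subset_closedBall hrR.le (hseg y hy))
  have hk₀c : ContinuousOn k₀ (Icc y₁ y₂) := by
    refine (msum_cont x₀ s).continuousOn.add ?_
    intro y hy
    have h5 : AnalyticAt ℂ (logDeriv g) ⟨x₀, y⟩ :=
      (hgan y hy).deriv.div (hgan y hy) (h4 _ (hseg y hy))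
    have h6 : ContinuousAt (fun y : ℝ => (⟨x₀, y⟩ : ℂ)) y := by
      have : (fun y : ℝ => (⟨x₀, y⟩ : ℂ)) = fun y : ℝ => (x₀ : ℂ) + y * I := by
        funext y
        apply Complex.ext <;> simp
      rw [this]
      fun_prop
    have h7 : ContinuousAt (fun y : ℝ => logDeriv g ⟨x₀, y⟩) y :=
      ContinuousAt.comp (g := logDeriv g) (f := fun y : ℝ => (⟨x₀, y⟩ : ℂ)) h5.continuousAt h6
    exact (Complex.continuous_re.continuousAt.comp h7).continuousWithinAt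
  refine ⟨IccExtend h12 ((Icc y₁ y₂).domRestrict k₀), ?_, ?_, ?_⟩
  · exact (continuousOn_iff_continuous_domRestrict.1 hk₀c).Icc_extend'
  · intro y hy hfy
    rw [IccExtend_of_mem h12 _ hy]
    show k₀ y = _
    rw [decomp h3 (hgan y hy) hfy]
  · refine Set.Finite.subset (Set.Finite.image Complex.im (s.toFinset.finite_toSet)) ?_
    intro y hy
    refine ⟨⟨x₀, y⟩, ?_, rfl⟩
    rw [Finset.mem_coe, Multiset.mem_toFinset]
    have h5 := hy.2
    rw [h3, mul_eq_zero] at h5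
    rcases h5 with h5 | h5
    · by_contra hcon
      exact Pf_ne_zero (z := ⟨x₀, y⟩) (fun ρ hρ he => hcon (by rw [he]; exact hρ)) h5
    · exact absurd h5 (h4 _ (hseg y hy.1))

lemma zeta_k {x₀ T H : ℝ} (hx : 1 / 2 ≤ x₀) (hx1 : x₀ ≤ 3) (hH : 0 ≤ H) (hT : H + 6 ≤ T) :
    ∃ k : ℝ → ℝ, Continuous k ∧
      (∀ y ∈ Icc (T - H) (T + H), riemannZeta ⟨x₀, y⟩ ≠ 0 → k y = (logDeriv riemannZeta ⟨x₀, y⟩).re) ∧
      {y : ℝ | y ∈ Icc (T - H) (T + H) ∧ riemannZeta ⟨x₀, y⟩ = 0}.Finite := by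
  have han : AnalyticOnNhd ℂ riemannZeta (closedBall ⟨2, T⟩ (H + 3)) := by
    intro z hz
    apply BS.zeta_an
    rw [mem_closedBall, dist_eq_norm] at hz
    have h1 := (Complex.abs_im_le_norm (z - ⟨2, T⟩)).trans hz
    rw [Complex.sub_im] at h1
    have h2 := (abs_le.1 h1).1
    have e : (⟨2, T⟩ : ℂ).im = T := rfl
    rw [e] at h2
    linarith
  obtain ⟨B, hB⟩ := (isCompact_closedBall (⟨2, T⟩ : ℂ) (H + 3)).exists_bound_of_continuousOn
    (fun z hz => (han z hz).continuousAt.continuousWithinAt)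
  refine k_exists (c := ⟨2, T⟩) (r := H + 2) (R := H + 3) (M := max B 1) (by linarith) (by linarith) (le_max_right _ _)
    han ?_ (fun z hz => (hB z hz).trans (le_max_left _ _)) (by linarith) ?_
  · exact riemannZeta_ne_zero_of_one_le_re (by show (1:ℝ) ≤ 2; norm_num)
  · intro y hy
    rw [mem_closedBall, dist_eq_norm]
    refine (Complex.norm_le_abs_re_add_abs_im _).trans ?_
    have e1 : ((⟨x₀, y⟩ : ℂ) - ⟨2, T⟩).re = x₀ - 2 := rfl
    have e2 : ((⟨x₀, y⟩ : ℂ) - ⟨2, T⟩).im = y - T := rfl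
    rw [e1, e2]
    have h1 : |x₀ - 2| ≤ 2 := by rw [abs_le]; constructor <;> linarith
    have h2 : |y - T| ≤ H := by rw [abs_le]; constructor <;> linarith [hy.1, hy.2]
    linarith

lemma lint_eq {f : ℂ → ℂ} {k : ℝ → ℝ} (hk : Continuous k) {a b β x₀ : ℝ} (hab : a ≤ b)
    (hkf : ∀ y ∈ Icc a b, f ⟨x₀, y⟩ ≠ 0 → k y = (logDeriv f ⟨x₀, y⟩).re)
    (hfin : {y : ℝ | y ∈ Icc a b ∧ f ⟨x₀, y⟩ = 0}.Finite) :
    ENNReal.ofReal (∫ y in a..b, max 0 (-k y - β)) =
      ∫⁻ y in Icc a b, ENNReal.ofReal (-(logDeriv f ⟨x₀, y⟩).re - β) := by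
  have hc : Continuous (fun y => max 0 (-k y - β)) := continuous_const.max (hk.neg.sub continuous_const)
  rw [intervalIntegral.integral_of_le hab, ofReal_integral_eq_lintegral_ofReal
    ((hc.integrableOn_Icc).mono_set Ioc_subset_Icc_self) (Eventually.of_forall fun y => le_max_left _ _),
    restrict_Ioc_eq_restrict_Icc]
  apply lintegral_congr_ae
  have h1 : ∀ᵐ y ∂(volume : Measure ℝ), y ∉ {y : ℝ | y ∈ Icc a b ∧ f ⟨x₀, y⟩ = 0} :=
    (compl_mem_ae_iff.2 (hfin.measure_zero volume))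
  rw [Filter.EventuallyEq, ae_restrict_iff' measurableSet_Icc]
  filter_upwards [h1] with y hy hyI
  have h2 : f ⟨x₀, y⟩ ≠ 0 := fun h => hy ⟨hyI, h⟩
  rw [← hkf y hyI h2]
  rcases le_total 0 (-k y - β) with h3 | h3
  · rw [max_eq_right h3]
  · rw [max_eq_left h3, ENNReal.ofReal_zero, ENNReal.ofReal_of_nonpos h3]

end Pool.Agent.V7H88.NM
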