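import Mathlib
import Pool.Agent.V7H88.NM.C
import Pool.Agent.V7H88.BS.E

/-!
The local law: the size of zeta from the horizontal derivative on a line to the left.
-/

set_option autoImplicit false
set_option maxHeartbeats 1000000

open Complex Filter Topology Metric Set MeasureTheory

namespace Pool.Agent.V7H88.NM

/-- the rate of decrease of `log |ζ|` to the right -/
noncomputable def Dc (σ t : ℝ) : ℝ := -(logDeriv riemannZeta ⟨σ, t⟩).re

lemma budget {P η Λ θ σ ε₂ N K a ε x : ℝ} (hΛ : 0 ≤ Λ) (hP : 0 ≤ P) (hθ : 0 ≤ θ) (hN : N ≤ η * Λ)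
    (hax : a - x = 1 - σ + ε₂) (hax2 : a - x ≤ 2) (hax0 : 0 ≤ a - x) (hη0 : 0 ≤ η)
    (h1 : η * P ≤ ε / 8) (h2 : 2 * η ≤ ε / 8) (h3 : θ * ε₂ ≤ ε / 4) (h4 : K * a ^ 2 ≤ ε / 8 * Λ) :
    P * N + ((θ + η) * Λ + 3) * (a - x) + K * a ^ 2 ≤ (θ * (1 - σ) + 5 * ε / 8) * Λ + 6 := by
  have e1 : P * N ≤ ε / 8 * Λ := by
    calc P * N ≤ P * (η * Λ) := mul_le_mul_of_nonneg_left hN hP
      _ = (η * P) * Λ := by ring
      _ ≤ ε / 8 * Λ := mul_le_mul_of_nonneg_right h1 hΛ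
  have e2 : (θ * Λ) * (a - x) ≤ (θ * (1 - σ) + ε / 4) * Λ := by
    rw [hax]
    have : (θ * (1 - σ + ε₂)) * Λ ≤ (θ * (1 - σ) + ε / 4) * Λ := by
      apply mul_le_mul_of_nonneg_right _ hΛ
      linarith
    linarith
  have e3 : (η * Λ) * (a - x) ≤ ε / 8 * Λ := by
    calc (η * Λ) * (a - x) ≤ (η * Λ) * 2 := mul_le_mul_of_nonneg_left hax2 (by positivity)
      _ = (2 * η) * Λ := by ring
      _ ≤ _ := mul_le_mul_of_nonneg_right h2 hΛ
  have e4 : ((θ + η) * Λ + 3) * (a - x) = (θ * Λ) * (a - x) + (η * Λ) * (a - x) + 3 * (a - x) := by ring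
  rw [e4]
  linarith

/-- the local law, uniform in the line -/
theorem local_law_unif {σ y θ ε : ℝ} (hy : 0 < y) (hy1 : y ≤ 1) (h2 : σ ≤ 1) (hθ : 0 ≤ θ) (hε : 0 < ε) :
    ∃ η H : ℝ, 0 < η ∧ 0 < H ∧ ∀ᶠ T : ℝ in atTop, ∀ σ₀ : ℝ, 1 / 2 ≤ σ₀ → σ₀ ≤ σ - y →
      ∫⁻ t in Icc (T - H) (T + H), ENNReal.ofReal (Dc σ₀ t - (θ + η) * Real.log T) ≤
        ENNReal.ofReal (η * Real.log T) →
      ‖riemannZeta ⟨σ, T⟩‖ ≤ T ^ (θ * (1 - σ) + ε) := by
  set ε₂ : ℝ := min 1 (ε / (4 * (θ + 1))) with hε₂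
  have hε₂0 : 0 < ε₂ := lt_min one_pos (by positivity)
  have hε₂1 : ε₂ ≤ 1 := min_le_left _ _
  have hε₂2 : θ * ε₂ ≤ ε / 4 := by
    have e1 : ε₂ ≤ ε / (4 * (θ + 1)) := min_le_right _ _
    calc θ * ε₂ ≤ (θ + 1) * (ε / (4 * (θ + 1))) := by
          apply mul_le_mul (by linarith) e1 hε₂0.le (by linarith)
      _ = ε / 4 := by field_simp
  set H₀ : ℝ := 36 / ε + 1 with hH₀
  have hH₀1 : 1 ≤ H₀ := by
    have : 0 < 36 / ε := by positivity
    linarith
  have hH₀0 : 0 < H₀ := by linarith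
  have hH₀2 : 36 / ε ≤ H₀ ^ 2 := by
    have : H₀ ≤ H₀ ^ 2 := by
      rw [pow_two]
      exact le_mul_of_one_le_right hH₀0.le hH₀1
    linarith
  set Dm : ℝ := 2 * H₀ + 5 with hDm
  set P : ℝ := 1 / Real.pi * (Real.log Dm - Real.log y) with hP
  have hP0 : 0 ≤ P := by
    have e1 : 0 ≤ Real.log Dm := Real.log_nonneg (by linarith)
    have e2 : Real.log y ≤ 0 := Real.log_nonpos hy.le hy1
    have := Real.pi_pos
    have : 0 ≤ Real.log Dm - Real.log y := by linarith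
    positivity
  set η : ℝ := ε / (16 * (P + 1)) with hη
  have hη0 : 0 < η := by positivity
  have hη1 : η * P ≤ ε / 8 := by
    have : η * P ≤ η * (P + 1) := by
      apply mul_le_mul_of_nonneg_left _ hη0.le
      linarith
    have e : η * (P + 1) = ε / 16 := by rw [hη]; field_simp
    linarith
  have hη2 : 2 * η ≤ ε / 8 := by
    have e : η * (P + 1) = ε / 16 := by rw [hη]; field_simp
    have : 0 ≤ η * P := by positivity
    linarith
  obtain ⟨A, hA1, hA⟩ := DH31.zeta_bounds (a := 1 + ε₂) (by linarith)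
  refine ⟨η, H₀ + 1, hη0, by linarith, ?_⟩
  filter_upwards [eventually_ge_atTop (H₀ + 7), BS.ev_rpow ((A + 15) * Real.exp 6) (p := 3 * ε / 8) (by positivity)]
    with T hT hTC σ₀ h0 h1 hint
  set a : ℝ := 1 - σ₀ + ε₂ with ha
  have ha0 : 0 < a := by linarith
  have ha1 : a ≤ 3 / 2 := by linarith
  set x : ℝ := σ - σ₀ with hx
  have hx0 : 0 < x := by linarith
  have hyx : y ≤ x := by linarith
  have hxa : x ≤ a := by linarith
  have hax : a - x = 1 - σ + ε₂ := by rw [ha, hx]; ring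
  have hT0 : 0 < T := by linarith
  have hT4 : 4 ≤ T := by linarith
  set Λ := Real.log T with hΛ
  have hΛ0 : 0 ≤ Λ := Real.log_nonneg (by linarith)
  obtain ⟨k, hkc, hkf, hkfin⟩ := zeta_k (x₀ := σ₀) (T := T) (H := H₀ + 1) h0 (by linarith) (by linarith) (by linarith)
  set β : ℝ := (θ + η) * Λ with hβ
  have hβ0 : 0 ≤ β := by positivity
  set K : ℝ := 2 * Λ / H₀ ^ 2 with hK
  have hK0 : 0 ≤ K := by positivity
  have hKH : K * H₀ ^ 2 = 2 * Λ := by rw [hK]; field_simp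
  have hKa : K * a ^ 2 ≤ ε / 8 * Λ := by
    have e1 : a ^ 2 ≤ (3 / 2) ^ 2 := by gcongr
    have e2 : K ≤ 2 * Λ / (36 / ε) := by
      rw [hK]
      gcongr
    calc K * a ^ 2 ≤ (2 * Λ / (36 / ε)) * (3 / 2) ^ 2 := by
          apply mul_le_mul e2 e1 (by positivity) (by positivity)
      _ = ε / 8 * Λ := by field_simp; ring
  set N : ℝ := ∫ y in (-(H₀ + 1))..(H₀ + 1), max 0 (-(k (T + y)) - β) with hN
  have hNle : N ≤ η * Λ := by
    have e1 : N = ∫ t in (T - (H₀ + 1))..(T + (H₀ + 1)), max 0 (-(k t) - β) := by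
      rw [hN, intervalIntegral.integral_comp_add_left (fun t => max 0 (-(k t) - β)) T, ← sub_eq_add_neg]
    have e2 := lint_eq (β := β) hkc (by linarith : T - (H₀ + 1) ≤ T + (H₀ + 1)) hkf hkfin
    rw [← e1] at e2
    have e3 : ENNReal.ofReal N ≤ ENNReal.ofReal (η * Λ) := by
      rw [e2]
      exact hint
    rwa [ENNReal.ofReal_le_ofReal_iff (by positivity)] at e3
  set f : ℂ → ℂ := fun z => riemannZeta (⟨σ₀, T⟩ + z) with hf
  have him : ∀ z : ℂ, z.im ∈ Icc (-H₀) H₀ → 1 ≤ ((⟨σ₀, T⟩ : ℂ) + z).im := by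
    intro z hz
    rw [Complex.add_im]
    show 1 ≤ T + z.im
    linarith [hz.1]
  have key := neumann_max (f := f) (a := a) (H := H₀) ha0 hH₀0 (by
      intro z hz1 hz2
      have := BS.zeta_an (him z hz2)
      exact AnalyticAt.comp (g := riemannZeta) (f := fun z : ℂ => (⟨σ₀, T⟩ : ℂ) + z) this
        (by fun_prop))
    (k := fun y => k (T + y)) (by fun_prop) (by
      intro y hy hfy
      have e1 : (⟨σ₀, T⟩ : ℂ) + y * I = ⟨σ₀, T + y⟩ := by
        apply Complex.ext <;> simp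
      simp only [hf] at hfy ⊢
      rw [e1] at hfy
      rw [hkf (T + y) ⟨by linarith [hy.1], by linarith [hy.2]⟩ hfy]
      congr 1
      rw [logDeriv_apply, logDeriv_apply, deriv_comp_const_add, e1])
    (β := β) (K := K) (MR := A) (ME := 15 * T) hβ0 hK0 (by
      intro z hz1 hz2
      refine (hA _ ?_).1
      rw [Complex.add_re, hz1]
      show 1 + ε₂ ≤ σ₀ + a
      linarith) (by
      intro z hz1 hz2
      have e1 : (⟨σ₀, T⟩ : ℂ) + z = ⟨σ₀ + z.re, T + z.im⟩ := rfl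
      simp only [hf]
      rw [e1]
      have e2 : |z.im| ≤ H₀ := by
        rcases hz2 with h | h
        · rw [h, abs_of_pos hH₀0]
        · rw [h, abs_neg, abs_of_pos hH₀0]
      have e3 := abs_le.1 e2
      exact BS.growth (by linarith [hz1.1]) (by linarith [hz1.2]) (by linarith) (by linarith) hT4)
    (x := x) (Dm := Dm) hx0 hxa (by linarith)
  have efx : f x = riemannZeta ⟨σ, T⟩ := by
    simp only [hf]
    congr 1
    apply Complex.ext
    · simp [hx]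
    · simp
  rw [efx] at key
  have eM : max A (15 * T * Real.exp (-(K * H₀ ^ 2))) ≤ A + 15 := by
    apply max_le (by linarith)
    rw [hKH]
    have e1 : Real.exp (-(2 * Λ)) = T⁻¹ * T⁻¹ := by
      rw [show -(2 * Λ) = (-Λ) + (-Λ) by ring, Real.exp_add, Real.exp_neg, hΛ, Real.exp_log hT0]
    rw [e1]
    have e2 : 15 * T * (T⁻¹ * T⁻¹) = 15 * T⁻¹ := by field_simp
    have e3 : T⁻¹ ≤ 1 := inv_le_one_of_one_le₀ (by linarith)
    rw [e2]
    linarith
  have eE := budget (P := P) (η := η) (Λ := Λ) (θ := θ) (σ := σ) (ε₂ := ε₂) (N := N) (K := K) (a := a) (ε := ε)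
    (x := x) hΛ0 hP0 hθ hNle hax (by linarith) (by linarith) hη0.le hη1 hη2 hε₂2 hKa
  have hN0 : 0 ≤ N := intervalIntegral.integral_nonneg (by linarith) fun y _ => le_max_left _ _
  have eP : 1 / Real.pi * ((Real.log Dm - Real.log x) * N) +
      (β + 3) * (a - x) + K * a ^ 2 ≤ P * N + ((θ + η) * Λ + 3) * (a - x) + K * a ^ 2 := by
    have e1 : Real.log y ≤ Real.log x := Real.log_le_log hy hyx
    have e2 : (Real.log Dm - Real.log x) * N ≤ (Real.log Dm - Real.log y) * N :=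
      mul_le_mul_of_nonneg_right (by linarith) hN0
    have e3 : 1 / Real.pi * ((Real.log Dm - Real.log x) * N) ≤ 1 / Real.pi * ((Real.log Dm - Real.log y) * N) :=
      mul_le_mul_of_nonneg_left e2 (by have := Real.pi_pos; positivity)
    have e4 : P * N = 1 / Real.pi * ((Real.log Dm - Real.log y) * N) := by rw [hP]; ring
    rw [e4]
    linarith
  have key := key.trans (mul_le_mul_of_nonneg_left (Real.exp_le_exp.2 eP) (le_max_of_le_left (by linarith)))
  calc ‖riemannZeta ⟨σ, T⟩‖ ≤ _ := key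
    _ ≤ (A + 15) * Real.exp ((θ * (1 - σ) + 5 * ε / 8) * Λ + 6) := by
        apply mul_le_mul eM (Real.exp_le_exp.2 eE) (Real.exp_pos _).le (by linarith)
    _ = ((A + 15) * Real.exp 6) * T ^ (θ * (1 - σ) + 5 * ε / 8) := by
        rw [Real.exp_add, BS.rpow_eq_exp hT0]
        ring
    _ ≤ T ^ (3 * ε / 8) * T ^ (θ * (1 - σ) + 5 * ε / 8) := by
        apply mul_le_mul_of_nonneg_right hTC (by positivity)
    _ = T ^ (θ * (1 - σ) + ε) := by
        rw [← Real.rpow_add hT0]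
        congr 1
        ring

theorem local_law {σ₀ σ θ ε : ℝ} (h0 : 1 / 2 ≤ σ₀) (h1 : σ₀ < σ) (h2 : σ ≤ 1) (hθ : 0 ≤ θ) (hε : 0 < ε) :
    ∃ η H : ℝ, 0 < η ∧ 0 < H ∧ ∀ᶠ T : ℝ in atTop,
      ∫⁻ t in Icc (T - H) (T + H), ENNReal.ofReal (Dc σ₀ t - (θ + η) * Real.log T) ≤
        ENNReal.ofReal (η * Real.log T) →
      ‖riemannZeta ⟨σ, T⟩‖ ≤ T ^ (θ * (1 - σ) + ε) := by
  obtain ⟨η, H, hη, hH, hev⟩ := local_law_unif (σ := σ) (y := σ - σ₀) (by linarith) (by linarith) h2 hθ hε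
  refine ⟨η, H, hη, hH, ?_⟩
  filter_upwards [hev] with T hT
  exact hT σ₀ h0 (by linarith)

/-- large values on the critical line and the fall on all lines near it -/
theorem large_fall {κ : ℝ} (hκ : 0 < κ) : ∃ η H : ℝ, 0 < η ∧ 0 < H ∧ ∀ᶠ T : ℝ in atTop,
    T ^ κ ≤ ‖riemannZeta ⟨1 / 2, T⟩‖ → ∀ σ₀ : ℝ, 1 / 2 ≤ σ₀ → σ₀ ≤ 1 / 2 + η →
      ENNReal.ofReal (η * Real.log T) <
        ∫⁻ t in Icc (T - H) (T + H), ENNReal.ofReal (Dc σ₀ t - η * Real.log T) := by
  obtain ⟨C, hC1, hC⟩ := BS.three_lines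
  set y : ℝ := min (1 / 20) (κ / 4) with hy
  have hy0 : 0 < y := lt_min (by norm_num) (by positivity)
  have hy1 : y ≤ 1 / 20 := min_le_left _ _
  have hy2 : y ≤ κ / 4 := min_le_right _ _
  obtain ⟨η, H, hη, hH, hev⟩ := local_law_unif (σ := 1 / 2 + y) (y := y / 2) (θ := 0) (ε := κ / 8)
    (by linarith) (by linarith) (by linarith) le_rfl (by linarith)
  obtain ⟨T₁, hT₁⟩ := eventually_atTop.1 hev
  refine ⟨min (η / 2) (y / 2), H + 1, lt_min (by linarith) (by linarith), by linarith, ?_⟩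
  filter_upwards [eventually_ge_atTop 4, eventually_ge_atTop (T₁ + 1), BS.ev_rpow (C * 2 ^ (κ / 8)) (p := κ / 4)
    (by positivity)] with T h4 hTT hTC hbig σ₀ h0 h1
  have hm1 := min_le_left (η / 2) (y / 2)
  have hm2 := min_le_right (η / 2) (y / 2)
  have hm0 : 0 < min (η / 2) (y / 2) := lt_min (by linarith) (by linarith)
  have hT0 : 0 < T := by linarith
  have hT1 : 1 ≤ T := by linarith
  -- a large value to the right
  have hex : ∃ t : ℝ, |t - T| ≤ 1 ∧ 2 ^ (κ / 8) * T ^ (κ / 8) < ‖riemannZeta ⟨1 / 2 + y, t⟩‖ := by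
    by_contra hcon
    push Not at hcon
    have h5 := hC y T (2 ^ (κ / 8) * T ^ (κ / 8)) hy0 hy1 h4
      (one_le_mul_of_one_le_of_one_le (Real.one_le_rpow (by norm_num) (by positivity))
        (Real.one_le_rpow hT1 (by positivity))) hcon
    have h6 : T ^ (3 / 5 * y) ≤ T ^ (κ / 4) := by
      apply Real.rpow_le_rpow_of_exponent_le hT1
      linarith
    have h7 : C * T ^ (3 / 5 * y) * (2 ^ (κ / 8) * T ^ (κ / 8)) ≤ T ^ (κ / 4) * T ^ (κ / 4) * T ^ (κ / 8) := by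
      calc C * T ^ (3 / 5 * y) * (2 ^ (κ / 8) * T ^ (κ / 8)) = (C * 2 ^ (κ / 8)) * T ^ (3 / 5 * y) * T ^ (κ / 8) := by
            ring
        _ ≤ T ^ (κ / 4) * T ^ (κ / 4) * T ^ (κ / 8) := by gcongr
    have h8 : T ^ (κ / 4) * T ^ (κ / 4) * T ^ (κ / 8) < T ^ κ := by
      rw [← Real.rpow_add hT0, ← Real.rpow_add hT0]
      apply Real.rpow_lt_rpow_of_exponent_lt (by linarith)
      linarith
    linarith
  obtain ⟨t, ht, hbt⟩ := hex
  have ht' := abs_le.1 ht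
  have ht0 : 0 < t := by linarith
  have h9 := hT₁ t (by linarith) σ₀ h0 (by linarith)
  have h10 : ¬ (‖riemannZeta ⟨1 / 2 + y, t⟩‖ ≤ t ^ (0 * (1 - (1 / 2 + y)) + κ / 8)) := by
    rw [not_le, zero_mul, zero_add]
    refine lt_of_le_of_lt ?_ hbt
    rw [← Real.mul_rpow (by norm_num) hT0.le]
    exact Real.rpow_le_rpow ht0.le (by linarith) (by positivity)
  have h11 := lt_of_not_ge (fun h => h10 (h9 h))
  have hlt : Real.log T ≤ 2 * Real.log t := by
    rw [← Real.log_rpow ht0]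
    apply Real.log_le_log hT0
    have e : t ^ (2:ℝ) = t * t := by
      rw [show (2:ℝ) = ((2:ℕ):ℝ) by norm_num, Real.rpow_natCast]; ring
    rw [e]
    have : 3 * t ≤ t * t := mul_le_mul_of_nonneg_right (by linarith) ht0.le
    linarith
  have hΛ0 : 0 ≤ Real.log T := Real.log_nonneg hT1
  have hcmp : min (η / 2) (y / 2) * Real.log T ≤ η * Real.log t := by
    calc min (η / 2) (y / 2) * Real.log T ≤ η / 2 * (2 * Real.log t) := by
          apply mul_le_mul hm1 hlt hΛ0 (by linarith)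
      _ = η * Real.log t := by ring
  refine lt_of_le_of_lt (ENNReal.ofReal_le_ofReal hcmp) (lt_of_lt_of_le h11 ?_)
  calc ∫⁻ s in Icc (t - H) (t + H), ENNReal.ofReal (Dc σ₀ s - (0 + η) * Real.log t)
      ≤ ∫⁻ s in Icc (T - (H + 1)) (T + (H + 1)), ENNReal.ofReal (Dc σ₀ s - (0 + η) * Real.log t) :=
        lintegral_mono_set (Icc_subset_Icc (by linarith) (by linarith))
    _ ≤ _ := by
        refine lintegral_mono fun s => ENNReal.ofReal_le_ofReal ?_
        rw [zero_add]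
        linarith

end Pool.Agent.V7H88.NM
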