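import Mathlib
import Pool.Agent.V7H88.NM.D

/-!
Small values on a line make the horizontal logarithmic derivative small to the right of it.
-/

set_option autoImplicit false
set_option maxHeartbeats 2000000

open Complex Filter Topology Metric Set MeasureTheory
open H370.Loc

namespace Pool.Agent.V7H88.NM

theorem right_small {σ₀ κ V : ℝ} (h0 : 1 / 2 ≤ σ₀) (h1 : σ₀ ≤ 1) (hκ : 0 < κ) (hκ1 : κ ≤ 1) (hV : 0 ≤ V) :
    ∃ H T₁ : ℝ, V ≤ H ∧ 4 ≤ T₁ ∧ ∀ T : ℝ, T₁ ≤ T →
      (∀ t : ℝ, |t - T| ≤ H → ‖riemannZeta ⟨σ₀, t⟩‖ ≤ T ^ κ) →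
      ∀ s : ℂ, σ₀ ≤ s.re → |s.im - T| ≤ V → ‖riemannZeta s‖ ≤ T ^ (2 * κ) := by
  obtain ⟨A, hA1, hA⟩ := DH31.zeta_bounds (a := 3 / 2) (by norm_num)
  set W : ℝ := 1 + 2 / κ with hW
  have hW1 : 1 ≤ W := by rw [hW]; have : 0 < 2 / κ := by positivity
                         linarith
  have hWκ : κ * (1 - W ^ 2) ≤ -1 := by
    have h1 : κ * W = κ + 2 := by rw [hW]; field_simp
    exact BS.rb1 hκ h1
  refine ⟨V + W, 4 + 2 * (V + W) + (A + 15) ^ (1 / κ), by linarith, ?_, ?_⟩
  · have : 0 ≤ (A + 15) ^ (1 / κ) := by positivity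
    linarith
  intro T hT h s hs1 hs2
  have hAp : 0 ≤ (A + 15) ^ (1 / κ) := by positivity
  have hT4 : 4 ≤ T := by linarith
  have hT0 : 0 < T := by linarith
  have hAT : A + 15 ≤ T ^ κ := by
    have := Real.rpow_le_rpow hAp (by linarith : (A + 15) ^ (1 / κ) ≤ T) hκ.le
    rwa [← Real.rpow_mul (by linarith), one_div_mul_cancel hκ.ne', Real.rpow_one] at this
  have hT1 : 1 ≤ T ^ κ := by linarith
  have h2κ : T ^ (2 * κ) = T ^ κ * T ^ κ := by rw [← Real.rpow_add hT0]; congr 1; ring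
  rcases le_or_gt (3 / 2) s.re with h3 | h3
  · calc ‖riemannZeta s‖ ≤ A := (hA s h3).1
      _ ≤ T ^ κ := by linarith
      _ ≤ T ^ (2 * κ) := by rw [h2κ]; exact BS.rb2 hA1 hAT
  set Λ := Real.log T with hΛ
  have hΛ0 : 0 < Λ := Real.log_pos (by linarith)
  set t₀ := s.im with ht₀
  have hs2' := abs_le.1 hs2
  let g : ℂ → ℂ := fun z => riemannZeta (⟨σ₀, t₀⟩ + z) * cexp ((κ * Λ : ℝ) * z ^ 2)
  have hg : ∀ x v : ℝ, ‖g ⟨x, v⟩‖ = ‖riemannZeta ⟨σ₀ + x, t₀ + v⟩‖ *
      Real.exp (κ * Λ * (x ^ 2 - v ^ 2)) := by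
    intro x v
    have e : (⟨σ₀, t₀⟩ : ℂ) + ⟨x, v⟩ = ⟨σ₀ + x, t₀ + v⟩ := rfl
    simp only [g]
    rw [norm_mul, BS.gauss_norm, e]
  have hside : ∀ x v : ℝ, 0 ≤ x → x ≤ 1 → |v| = W → ‖g ⟨x, v⟩‖ ≤ (A + 15) * T ^ κ := by
    intro x v hx hx1 hv
    rw [hg]
    have hv' : v ^ 2 = W ^ 2 := by rw [← sq_abs, hv]
    have hv2 := abs_le.1 hv.le
    have h1 := BS.growth (σ := σ₀ + x) (t := t₀ + v) (T := T) (by linarith) (by linarith) (by linarith)
      (by linarith) hT4
    have h2 : κ * Λ * (x ^ 2 - v ^ 2) ≤ -Λ := by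
      rw [hv']
      have h5 : x ^ 2 ≤ 1 := BS.ra6 (by linarith) hx1
      have h6 : κ * Λ * (x ^ 2 - W ^ 2) ≤ κ * Λ * (1 - W ^ 2) := by gcongr
      have h7 : (κ * (1 - W ^ 2)) * Λ ≤ (-1) * Λ := by gcongr
      linarith
    have h3 : Real.exp (κ * Λ * (x ^ 2 - v ^ 2)) ≤ T⁻¹ := by
      refine (Real.exp_le_exp.2 h2).trans (le_of_eq ?_)
      rw [Real.exp_neg, hΛ, Real.exp_log hT0]
    calc ‖riemannZeta ⟨σ₀ + x, t₀ + v⟩‖ * Real.exp (κ * Λ * (x ^ 2 - v ^ 2))
        ≤ (15 * T) * T⁻¹ := by gcongr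
      _ = 15 := by field_simp
      _ ≤ (A + 15) * T ^ κ := BS.ra9 hA1 hT1
  have hfin := BS.rect_max (f := g) (a := 0) (b := 1) (c := -W) (d := W) (M := (A + 15) * T ^ κ)
    (by norm_num) (by linarith)
    (by
      intro z hz1 hz2
      have him : 1 ≤ ((⟨σ₀, t₀⟩ : ℂ) + z).im := by
        rw [Complex.add_im]
        show 1 ≤ t₀ + z.im
        linarith [hz2.1]
      have h1 : DifferentiableAt ℂ (fun z => riemannZeta (⟨σ₀, t₀⟩ + z)) z :=
        DifferentiableAt.comp (g := riemannZeta) (f := fun z : ℂ => (⟨σ₀, t₀⟩ : ℂ) + z) z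
          (BS.zeta_diff him) (by fun_prop)
      exact h1.mul (by fun_prop))
    (by
      intro v hv
      rw [hg]
      have h1 := h (t₀ + v) (by rw [abs_le]; constructor <;> linarith [hv.1, hv.2])
      rw [add_zero]
      have h2 : Real.exp (κ * Λ * (0 ^ 2 - v ^ 2)) ≤ 1 := by
        rw [Real.exp_le_one_iff]
        have : 0 ≤ κ * Λ * v ^ 2 := by positivity
        clear * - this
        linarith
      calc _ ≤ T ^ κ * 1 := by gcongr
        _ = T ^ κ := mul_one _
        _ ≤ (A + 15) * T ^ κ := BS.ra5 (by linarith) (by linarith))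
    (by
      intro v hv
      rw [hg]
      have h1 := (hA ⟨σ₀ + 1, t₀ + v⟩ (by show (3:ℝ) / 2 ≤ σ₀ + 1; linarith)).1
      have h2 : Real.exp (κ * Λ * (1 ^ 2 - v ^ 2)) ≤ T ^ κ := by
        rw [BS.rpow_eq_exp hT0]
        apply Real.exp_le_exp.2
        have : 0 ≤ κ * Λ * v ^ 2 := by positivity
        clear * - this
        linarith
      calc _ ≤ A * T ^ κ := by gcongr
        _ ≤ (A + 15) * T ^ κ := by
            apply mul_le_mul_of_nonneg_right _ (by linarith)
            linarith)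
    (fun x hx => hside x _ hx.1 hx.2 (by rw [abs_neg, abs_of_pos (by linarith)]))
    (fun x hx => hside x _ hx.1 hx.2 (by rw [abs_of_pos (by linarith)]))
    (z := ⟨s.re - σ₀, 0⟩) ⟨by show (0:ℝ) ≤ s.re - σ₀; linarith, by show s.re - σ₀ ≤ (1:ℝ); linarith⟩
      ⟨by show -W ≤ (0:ℝ); linarith, by show (0:ℝ) ≤ W; linarith⟩
  rw [hg] at hfin
  have e : (⟨σ₀ + (s.re - σ₀), t₀ + 0⟩ : ℂ) = s := by
    apply Complex.ext
    · show σ₀ + (s.re - σ₀) = s.re
      ring
    · show t₀ + 0 = s.im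
      rw [add_zero]
  rw [e] at hfin
  have h8 : 1 ≤ Real.exp (κ * Λ * ((s.re - σ₀) ^ 2 - 0 ^ 2)) := by
    apply Real.one_le_exp
    have : 0 ≤ κ * Λ * (s.re - σ₀) ^ 2 := by positivity
    clear * - this
    linarith
  calc ‖riemannZeta s‖ ≤ ‖riemannZeta s‖ * Real.exp (κ * Λ * ((s.re - σ₀) ^ 2 - 0 ^ 2)) :=
        le_mul_of_one_le_right (norm_nonneg _) h8
    _ ≤ (A + 15) * T ^ κ := hfin
    _ ≤ T ^ (2 * κ) := by rw [h2κ]; gcongr

lemma ker_int (x₀ : ℝ) (ρ : ℂ) {a b : ℝ} (hab : a ≤ b) : ∫ y in a..b, |ker x₀ ρ y| ≤ Real.pi := by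
  by_cases h : x₀ - ρ.re = 0
  · have : (fun y => |ker x₀ ρ y|) = fun _ => (0:ℝ) := by
      funext y
      simp [ker, h]
    rw [this]
    simp [Real.pi_pos.le]
  · set u : ℝ := |x₀ - ρ.re| with hu
    have hu0 : 0 < u := abs_pos.2 h
    have e : ∀ y, |ker x₀ ρ y| = u / (u ^ 2 + (y - ρ.im) ^ 2) := by
      intro y
      rw [ker, abs_div, abs_of_nonneg (by positivity : 0 ≤ (x₀ - ρ.re) ^ 2 + (y - ρ.im) ^ 2), hu, sq_abs]
    have hd : ∀ y ∈ uIcc a b, HasDerivAt (fun y => Real.arctan ((y - ρ.im) / u))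
        (|ker x₀ ρ y|) y := by
      intro y _
      have h1 : HasDerivAt (fun y : ℝ => (y - ρ.im) / u) (1 / u) y := by
        simpa using ((hasDerivAt_id y).sub_const ρ.im).div_const u
      have h2 := h1.arctan
      refine h2.congr_deriv ?_
      rw [e]
      field_simp
    rw [intervalIntegral.integral_eq_sub_of_hasDerivAt hd ((ker_cont x₀ ρ).abs.intervalIntegrable _ _)]
    have h1 := Real.arctan_lt_pi_div_two ((b - ρ.im) / u)
    have h2 := Real.neg_pi_div_two_lt_arctan ((a - ρ.im) / u)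
    linarith

lemma mabs_cont (x₀ : ℝ) (s : Multiset ℂ) : Continuous (fun y : ℝ => (s.map (fun ρ => |ker x₀ ρ y|)).sum) := by
  induction s using Multiset.induction_on with
  | empty => simpa using continuous_const
  | cons ρ s ih =>
    simp only [Multiset.map_cons, Multiset.sum_cons]
    exact (ker_cont x₀ ρ).abs.add ih

lemma mabs_int (x₀ : ℝ) (s : Multiset ℂ) {a b : ℝ} (hab : a ≤ b) :
    ∫ y in a..b, (s.map (fun ρ => |ker x₀ ρ y|)).sum ≤ Multiset.card s * Real.pi := by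
  induction s using Multiset.induction_on with
  | empty => simp
  | cons ρ s ih =>
    simp only [Multiset.map_cons, Multiset.sum_cons, Multiset.card_cons]
    rw [intervalIntegral.integral_add ((ker_cont x₀ ρ).abs.intervalIntegrable _ _)
      ((mabs_cont x₀ s).intervalIntegrable _ _)]
    push_cast
    linarith [ker_int x₀ ρ hab]

lemma msum_abs_le (x₀ : ℝ) (s : Multiset ℂ) (y : ℝ) :
    |(s.map (fun ρ => ker x₀ ρ y)).sum| ≤ (s.map (fun ρ => |ker x₀ ρ y|)).sum := by
  induction s using Multiset.induction_on with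
  | empty => simp
  | cons ρ s ih =>
    simp only [Multiset.map_cons, Multiset.sum_cons]
    exact (abs_add_le _ _).trans (by linarith)

lemma msum_nonneg (x₀ : ℝ) (s : Multiset ℂ) (y : ℝ) : 0 ≤ (s.map (fun ρ => |ker x₀ ρ y|)).sum := by
  refine Multiset.sum_nonneg fun x hx => ?_
  rw [Multiset.mem_map] at hx
  obtain ⟨ρ, -, rfl⟩ := hx
  exact abs_nonneg _

/-- the mean of the horizontal logarithmic derivative in a disc -/
lemma line_int {f : ℂ → ℂ} {c : ℂ} {r r1 r2 R M : ℝ} (hr2 : 0 < r2) (h21 : r2 < r1) (h1r : r1 < r)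
    (hrR : r < R) (hRr : R ≤ 2 * r) (hM : 1 ≤ M) (hMc : ‖f c‖ ≤ M)
    (hf : AnalyticOnNhd ℂ f (closedBall c R)) (hc : f c ≠ 0)
    (hb : ∀ z ∈ closedBall c R, ‖f z‖ ≤ M) {x₀ a b : ℝ} (hab : a ≤ b) (hab1 : b ≤ a + 1)
    (hseg : ∀ y ∈ Icc a b, (⟨x₀, y⟩ : ℂ) ∈ closedBall c r2) :
    ∫⁻ y in Icc a b, ENNReal.ofReal |(logDeriv f ⟨x₀, y⟩).re| ≤
      ENNReal.ofReal ((Real.pi / Real.log (R / r) + (1 + Real.log (r / (R - r)) / Real.log (R / r)) *
        (2 * r1 / (r - r1) / (r1 - r2))) * (Real.log (M / ‖f c‖) + 1)) := by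
  have hr : 0 < r := by linarith
  have hR : 0 < R := by linarith
  obtain ⟨s, g, hs, hg, hfg, hg0, hcard⟩ := extract hr hrR hM hf hc hb
  have hcr : c ∈ closedBall c r := mem_closedBall_self hr.le
  have hcR : c ∈ closedBall c R := mem_closedBall_self hR.le
  have hfc : 0 < ‖f c‖ := norm_pos_iff.2 hc
  set n := Multiset.card s with hn
  have hlogM : 0 ≤ Real.log (M / ‖f c‖) := Real.log_nonneg (by rw [le_div_iff₀ hfc]; linarith)
  have hRr0 : 0 < R - r := by linarith
  have hq : 1 ≤ r / (R - r) := by rw [le_div_iff₀ hRr0]; linarith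
  have hlogq : 0 ≤ Real.log (r / (R - r)) := Real.log_nonneg hq
  have hlogR : 0 < Real.log (R / r) := Real.log_pos (by rw [lt_div_iff₀ hr]; linarith)
  -- bounds for g
  have hgsphere : ∀ w ∈ sphere c R, ‖g w‖ ≤ M / (R - r) ^ n := by
    intro w hw
    have hwR := sphere_subset_closedBall hw
    have h1 : (R - r) ^ n ≤ ‖Pf s w‖ := Pf_norm_ge hRr0.le fun ρ hρ => by
      have h2 := (hs ρ hρ).1
      rw [mem_closedBall, dist_eq_norm] at h2
      rw [mem_sphere, dist_eq_norm] at hw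
      have h3 : ‖w - c‖ ≤ ‖w - ρ‖ + ‖ρ - c‖ := by
        calc ‖w - c‖ = ‖(w - ρ) + (ρ - c)‖ := by congr 1; ring
          _ ≤ _ := norm_add_le _ _
      linarith
    rw [le_div_iff₀ (by positivity)]
    calc ‖g w‖ * (R - r) ^ n ≤ ‖g w‖ * ‖Pf s w‖ := mul_le_mul_of_nonneg_left h1 (norm_nonneg _)
      _ = ‖f w‖ := by rw [hfg w, norm_mul, mul_comm]
      _ ≤ M := hb w hwR
  have hgball : ∀ w ∈ closedBall c R, ‖g w‖ ≤ M / (R - r) ^ n := by
    intro w hw
    refine Complex.norm_le_of_forall_mem_frontier_norm_le (U := ball c R) isBounded_ball ?_ ?_ ?_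
    · apply DifferentiableOn.diffContOnCl
      rw [closure_ball c hR.ne']
      exact fun x hx => (hg x hx).differentiableAt.differentiableWithinAt
    · intro x hx
      rw [frontier_ball c hR.ne'] at hx
      exact hgsphere x hx
    · rwa [closure_ball c hR.ne']
  have hgc : ‖f c‖ / r ^ n ≤ ‖g c‖ := by
    rw [div_le_iff₀ (by positivity)]
    have h1 : ‖Pf s c‖ ≤ r ^ n := Pf_norm_le fun ρ hρ => by
      have h2 := (hs ρ hρ).1
      rw [mem_closedBall, dist_eq_norm, norm_sub_rev] at h2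
      exact h2
    calc ‖f c‖ = ‖g c‖ * ‖Pf s c‖ := by rw [hfg c, norm_mul, mul_comm]
      _ ≤ ‖g c‖ * r ^ n := mul_le_mul_of_nonneg_left h1 (norm_nonneg _)
  set B : ℝ := Real.log (M / ‖f c‖) + n * Real.log (r / (R - r)) with hB
  have hB0 : 0 ≤ B := by positivity
  have hexpB : Real.exp B = M / ‖f c‖ * (r / (R - r)) ^ n := by
    rw [hB, Real.exp_add, Real.exp_log (by positivity), Real.exp_nat_mul,
      Real.exp_log (by positivity)]
  have hgb : ∀ w ∈ closedBall c r, ‖g w‖ ≤ Real.exp B * ‖g c‖ := by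
    intro w hw
    refine (hgball w (closedBall_subset_closedBall hrR.le hw)).trans ?_
    rw [hexpB]
    calc M / (R - r) ^ n = M / ‖f c‖ * (r / (R - r)) ^ n * (‖f c‖ / r ^ n) := by
          rw [div_pow]; field_simp
      _ ≤ _ := mul_le_mul_of_nonneg_left hgc (by positivity)
  set Y : ℝ := 2 * (B + 1) * r1 / (r - r1) / (r1 - r2) with hY
  have hr10 : 0 < r1 := by linarith
  have hY0 : 0 ≤ Y := by
    have h1 : 0 < r - r1 := by linarith
    have h2 : 0 < r1 - r2 := by linarith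
    positivity
  have hpt : ∀ y ∈ Icc a b, |(logDeriv f ⟨x₀, y⟩).re| ≤ (s.map (fun ρ => |ker x₀ ρ y|)).sum + Y := by
    intro y hy
    have hz := hseg y hy
    have hzr : (⟨x₀, y⟩ : ℂ) ∈ closedBall c r := closedBall_subset_closedBall (by linarith) hz
    have hzR : (⟨x₀, y⟩ : ℂ) ∈ closedBall c R := closedBall_subset_closedBall hrR.le hzr
    by_cases hfz : f ⟨x₀, y⟩ = 0
    · rw [logDeriv_apply, hfz, div_zero]
      simp only [Complex.zero_re, abs_zero]
      exact add_nonneg (msum_nonneg _ _ _) hY0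
    · have h1 := decomp (z := ⟨x₀, y⟩) hfg (hg _ hzR) hfz
      have h2 := logDeriv_zero_free hr2 h21 h1r hB0
        (hg.mono (closedBall_subset_closedBall hrR.le)) hg0 hgb hz
      rw [h1]
      refine (abs_add_le _ _).trans (add_le_add (msum_abs_le _ _ _) ?_)
      exact (Complex.abs_re_le_norm _).trans h2
  have hcY : Continuous (fun y : ℝ => (s.map (fun ρ => |ker x₀ ρ y|)).sum + Y) :=
    (mabs_cont x₀ s).add continuous_const
  calc ∫⁻ y in Icc a b, ENNReal.ofReal |(logDeriv f ⟨x₀, y⟩).re|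
      ≤ ∫⁻ y in Icc a b, ENNReal.ofReal ((s.map (fun ρ => |ker x₀ ρ y|)).sum + Y) := by
        refine setLIntegral_mono' measurableSet_Icc fun y hy => ?_
        exact ENNReal.ofReal_le_ofReal (hpt y hy)
    _ = ENNReal.ofReal (∫ y in a..b, ((s.map (fun ρ => |ker x₀ ρ y|)).sum + Y)) := by
        rw [intervalIntegral.integral_of_le hab, ofReal_integral_eq_lintegral_ofReal
          ((hcY.integrableOn_Icc).mono_set Ioc_subset_Icc_self)
          (Eventually.of_forall fun y => add_nonneg (msum_nonneg _ _ _) hY0),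
          restrict_Ioc_eq_restrict_Icc]
    _ ≤ _ := by
        apply ENNReal.ofReal_le_ofReal
        rw [intervalIntegral.integral_add ((mabs_cont x₀ s).intervalIntegrable _ _)
          intervalIntegrable_const, intervalIntegral.integral_const, smul_eq_mul]
        have h1 := mabs_int x₀ s hab
        have h2 : (b - a) * Y ≤ Y := mul_le_of_le_one_left hY0 (by linarith)
        set X : ℝ := Real.log (M / ‖f c‖) with hX
        set q : ℝ := Real.log (R / r) with hq'
        set w : ℝ := Real.log (r / (R - r)) with hw'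
        have h3 : (n : ℝ) ≤ X / q := hcard
        have h4 : B ≤ X + X / q * w := by
          rw [hB]
          have := mul_le_mul_of_nonneg_right h3 hlogq
          linarith
        set y₀ : ℝ := 2 * r1 / (r - r1) / (r1 - r2) with hy₀
        have hy0 : 0 ≤ y₀ := by
          have h1 : 0 < r - r1 := by linarith
          have h2 : 0 < r1 - r2 := by linarith
          positivity
        have h5 : Y = (B + 1) * y₀ := by
          rw [hY, hy₀]
          have h1 : r - r1 ≠ 0 := by linarith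
          have h2 : r1 - r2 ≠ 0 := by linarith
          field_simp
        have h6 : Y ≤ (1 + w / q) * y₀ * (X + 1) := by
          rw [h5]
          have h7 : B + 1 ≤ (1 + w / q) * (X + 1) := by
            have e : (1 + w / q) * (X + 1) = X + 1 + X / q * w + w / q := by
              field_simp
              ring
            rw [e]
            have : 0 ≤ w / q := by positivity
            linarith
          calc (B + 1) * y₀ ≤ ((1 + w / q) * (X + 1)) * y₀ := mul_le_mul_of_nonneg_right h7 hy0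
            _ = _ := by ring
        have h8 : (n : ℝ) * Real.pi ≤ Real.pi / q * (X + 1) := by
          have h9 : (n : ℝ) * Real.pi ≤ X / q * Real.pi := mul_le_mul_of_nonneg_right h3 Real.pi_pos.le
          have h10 : Real.pi / q * (X + 1) = X / q * Real.pi + Real.pi / q := by
            field_simp
          have h11 : 0 ≤ Real.pi / q := by
            have := Real.pi_pos
            positivity
          linarith
        have e2 : (Real.pi / q + (1 + w / q) * y₀) * (X + 1) =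
            Real.pi / q * (X + 1) + (1 + w / q) * y₀ * (X + 1) := by ring
        rw [e2]
        linarith

/-- **small values make the horizontal logarithmic derivative small** -/
theorem flat_of_small {σ₀ δ ε B : ℝ} (h0 : 1 / 2 ≤ σ₀) (h1 : σ₀ ≤ 1) (hδ : 0 < δ) (hε : 0 < ε) :
    ∃ κ H : ℝ, 0 < κ ∧ 0 < H ∧ ∀ᶠ T : ℝ in atTop,
      (∀ t : ℝ, |t - T| ≤ H → ‖riemannZeta ⟨σ₀, t⟩‖ ≤ T ^ κ) →
      ∀ σ : ℝ, σ₀ + δ ≤ σ → σ ≤ B →
        ∫⁻ t in Icc T (T + 1), ENNReal.ofReal |Dc σ t| ≤ ENNReal.ofReal (ε * Real.log T) := by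
  set X : ℝ := σ₀ + δ + 2 + 1 / δ + |B| with hX
  have hδi : 0 < 1 / δ := by positivity
  have hBa := abs_nonneg B
  have hX2 : 2 ≤ X := by linarith
  set R : ℝ := X - σ₀ with hR
  set r : ℝ := R - δ / 4 with hr
  set r1 : ℝ := R - 3 * δ / 8 with hr1
  set r2 : ℝ := R - δ / 2 with hr2
  have hr20 : 0 < r2 := by linarith
  set C₁ : ℝ := Real.pi / Real.log (R / r) + (1 + Real.log (r / (R - r)) / Real.log (R / r)) *
        (2 * r1 / (r - r1) / (r1 - r2)) with hC₁
  obtain ⟨A, hA1, hA⟩ := DH31.zeta_bounds (a := 3 / 2) (by norm_num)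
  set κ : ℝ := min 1 (ε / (8 * (|C₁| + 1))) with hκ
  have hκ0 : 0 < κ := lt_min one_pos (by positivity)
  have hκ1 : κ ≤ 1 := min_le_left _ _
  have hκ2 : |C₁| * (2 * κ) ≤ ε / 4 := by
    have e1 : κ ≤ ε / (8 * (|C₁| + 1)) := min_le_right _ _
    calc |C₁| * (2 * κ) ≤ (|C₁| + 1) * (2 * (ε / (8 * (|C₁| + 1)))) := by
          apply mul_le_mul (by linarith) (by linarith) (by positivity) (by positivity)
      _ = ε / 4 := by field_simp; ring
  obtain ⟨H, T₁, hVH, hT₁4, hsm⟩ := right_small (σ₀ := σ₀) (κ := κ) (V := X + 1) h0 h1 hκ0 hκ1 (by linarith)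
  refine ⟨κ, H, hκ0, by linarith, ?_⟩
  filter_upwards [eventually_ge_atTop T₁, eventually_ge_atTop (X + 10),
    BS.ev_log ((|C₁| * (Real.log A + 1)) / (ε / 4))] with T hT1 hTX hTl hsmall σ hσ1 hσ2
  have hT0 : 0 < T := by linarith
  set Λ := Real.log T with hΛ
  have hΛ0 : 0 ≤ Λ := Real.log_nonneg (by linarith)
  have hz := hsm T hT1 hsmall
  set c : ℂ := ⟨X, T + 1 / 2⟩ with hc
  have ecr : c.re = X := rfl
  have eci : c.im = T + 1 / 2 := rfl
  have hball : ∀ z ∈ closedBall c R, σ₀ ≤ z.re ∧ |z.im - T| ≤ X + 1 ∧ 1 ≤ z.im := by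
    intro z hz
    obtain ⟨h3, h4⟩ := BS.ball_coord hz
    have h3' := abs_le.1 h3
    have h4' := abs_le.1 h4
    rw [ecr] at h3'
    rw [eci] at h4'
    refine ⟨by linarith, ?_, by linarith⟩
    rw [abs_le]
    constructor <;> linarith
  have hcA := hA c (by rw [ecr]; linarith)
  have hc0 : riemannZeta c ≠ 0 := by
    rw [← norm_pos_iff]
    exact lt_of_lt_of_le (by positivity) hcA.2
  have hcn : 0 < ‖riemannZeta c‖ := norm_pos_iff.2 hc0
  have hMT : 1 ≤ T ^ (2 * κ) := Real.one_le_rpow (by linarith) (by positivity)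
  have hRr : 0 < R - r := by linarith
  have hmain := line_int (f := riemannZeta) (c := c) (r := r) (r1 := r1) (r2 := r2) (R := R) (M := T ^ (2 * κ))
    hr20 (by linarith) (by linarith) (by linarith) (by linarith) hMT
    (hz c (by rw [ecr]; linarith) (by rw [eci, abs_le]; constructor <;> linarith))
    (fun z hz => BS.zeta_an (hball z hz).2.2) hc0
    (fun z hz' => hz z (hball z hz').1 (hball z hz').2.1) (x₀ := σ) (a := T) (b := T + 1) (by linarith) le_rfl
    (by
      intro y hy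
      rw [mem_closedBall, dist_eq_norm]
      apply BS.norm_le_of_sq hr20.le
      have e1 : ((⟨σ, y⟩ : ℂ) - c).re = σ - X := rfl
      have e2 : ((⟨σ, y⟩ : ℂ) - c).im = y - (T + 1 / 2) := rfl
      rw [e1, e2]
      have hσX : σ ≤ X := by
        have := le_abs_self B
        linarith
      have h5 : (σ - X) ^ 2 ≤ (r2 - δ / 2) ^ 2 := by
        have e3 : (σ - X) ^ 2 = (X - σ) ^ 2 := by ring
        rw [e3]
        apply pow_le_pow_left₀ (by linarith)
        linarith
      have h6 : (y - (T + 1 / 2)) ^ 2 ≤ (1 / 2) ^ 2 := by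
        apply sq_le_sq'
        · linarith [hy.1]
        · linarith [hy.2]
      have h7 : δ * (1 / δ) = 1 := by field_simp
      have h8 : 1 + 1 / δ + δ / 2 ≤ r2 := by linarith
      have h9 : δ * (1 + 1 / δ + δ / 2) ≤ δ * r2 := mul_le_mul_of_nonneg_left h8 hδ.le
      have h10 : δ * (1 + 1 / δ + δ / 2) = δ + 1 + δ ^ 2 / 2 := by
        field_simp
      have h11 : (r2 - δ / 2) ^ 2 = r2 ^ 2 - δ * r2 + δ ^ 2 / 4 := by ring
      have h12 : 0 ≤ δ ^ 2 := sq_nonneg δ
      linarith)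
  have habs : ∀ t, |Dc σ t| = |(logDeriv riemannZeta ⟨σ, t⟩).re| := by
    intro t
    rw [Dc, abs_neg]
  simp only [habs]
  refine hmain.trans (ENNReal.ofReal_le_ofReal ?_)
  have h13 : Real.log (T ^ (2 * κ) / ‖riemannZeta c‖) ≤ 2 * κ * Λ + Real.log A := by
    rw [Real.log_div (by positivity) hcn.ne', Real.log_rpow hT0]
    have h14 : -Real.log ‖riemannZeta c‖ ≤ Real.log A := by
      rw [← Real.log_inv]
      apply Real.log_le_log (by positivity)
      have := hcA.2
      rw [one_div] at this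
      exact (inv_le_comm₀ (by linarith) hcn).1 this
    linarith
  have h15 : 0 ≤ Real.log (T ^ (2 * κ) / ‖riemannZeta c‖) := by
    apply Real.log_nonneg
    rw [le_div_iff₀ hcn, one_mul]
    exact hz c (by rw [ecr]; linarith) (by rw [eci, abs_le]; constructor <;> linarith)
  calc C₁ * (Real.log (T ^ (2 * κ) / ‖riemannZeta c‖) + 1)
      ≤ |C₁| * (Real.log (T ^ (2 * κ) / ‖riemannZeta c‖) + 1) := by
        apply mul_le_mul_of_nonneg_right (le_abs_self _)
        linarith
    _ ≤ |C₁| * (2 * κ * Λ + Real.log A + 1) := by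
        apply mul_le_mul_of_nonneg_left _ (abs_nonneg _)
        linarith
    _ = |C₁| * (2 * κ) * Λ + |C₁| * (Real.log A + 1) := by ring
    _ ≤ ε / 4 * Λ + ε / 4 * Λ := by
        apply add_le_add
        · exact mul_le_mul_of_nonneg_right hκ2 hΛ0
        · rw [div_le_iff₀ (by positivity)] at hTl
          linarith
    _ ≤ ε * Λ := by
        have : 0 ≤ ε * Λ := by positivity
        linarith

end Pool.Agent.V7H88.NM
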