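import Mathlib
import Pool.Agent.V7H88.NM.E
import Pool.Agent.TH804.MS4

/-!
The criteria.
-/

set_option autoImplicit false
set_option maxHeartbeats 1000000

open Complex Filter Topology Metric Set MeasureTheory

namespace Pool.Agent.V7H88.NM

def Gr (σ κ : ℝ) : Prop := ∀ ε : ℝ, 0 < ε → ∃ T₁ : ℝ, ∀ T : ℝ, T₁ ≤ T → ‖riemannZeta ⟨σ, T⟩‖ ≤ T ^ (κ + ε)

def Fa (σ θ : ℝ) : Prop := ∀ ε : ℝ, 0 < ε → ∃ T₁ : ℝ, ∀ T : ℝ, T₁ ≤ T →
  ∫⁻ t in Icc T (T + 1), ENNReal.ofReal (Dc σ t - (θ + ε) * Real.log T) ≤ ENNReal.ofReal (ε * Real.log T)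

def Fl (σ : ℝ) : Prop := ∀ ε : ℝ, 0 < ε → ∃ T₁ : ℝ, ∀ T : ℝ, T₁ ≤ T →
  ∫⁻ t in Icc T (T + 1), ENNReal.ofReal |Dc σ t| ≤ ENNReal.ofReal (ε * Real.log T)

lemma lint_cover (F : ℝ → ENNReal) (a : ℝ) (N : ℕ) {X : ENNReal}
    (h : ∀ k : ℕ, k ≤ N → ∫⁻ t in Icc (a + k) (a + k + 1), F t ≤ X) :
    ∫⁻ t in Icc a (a + N), F t ≤ (N + 1 : ℕ) * X := by
  induction N with
  | zero =>
    have h1 := h 0 le_rfl
    have h2 : Icc a (a + ((0 : ℕ) : ℝ)) ⊆ Icc (a + ((0 : ℕ) : ℝ)) (a + ((0 : ℕ) : ℝ) + 1) := by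
      intro t ht
      simp only [Nat.cast_zero, add_zero] at ht ⊢
      exact ⟨ht.1, by linarith [ht.2]⟩
    refine (lintegral_mono_set h2).trans (h1.trans ?_)
    simp
  | succ N ih =>
    have h1 := ih fun k hk => h k (by omega)
    have h2 := h N (by omega)
    have h3 : Icc a (a + ((N + 1 : ℕ) : ℝ)) ⊆ Icc a (a + (N : ℝ)) ∪ Icc (a + (N : ℝ)) (a + (N : ℝ) + 1) := by
      intro t ht
      push_cast at ht
      rcases le_total t (a + (N : ℝ)) with h4 | h4
      · exact Or.inl ⟨ht.1, h4⟩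
      · exact Or.inr ⟨h4, by linarith [ht.2]⟩
    refine (lintegral_mono_set h3).trans ((lintegral_union_le _ _ _).trans ?_)
    calc _ ≤ (N + 1 : ℕ) * X + X := add_le_add h1 h2
      _ = (N + 1 + 1 : ℕ) * X := by
        push_cast
        ring

lemma Fa_window {σ θ η H : ℝ} (hθ : 0 ≤ θ) (hη : 0 < η) (hH : 0 < H) (h : Fa σ θ) :
    ∀ᶠ T : ℝ in atTop, ∫⁻ t in Icc (T - H) (T + H), ENNReal.ofReal (Dc σ t - (θ + η) * Real.log T) ≤
      ENNReal.ofReal (η * Real.log T) := by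
  set N : ℕ := ⌈2 * H⌉₊ with hN
  have hNH : 2 * H ≤ N := Nat.le_ceil _
  have hNH' : (N : ℝ) ≤ 2 * H + 1 := (Nat.ceil_lt_add_one (by positivity)).le
  obtain ⟨T₁, hT₁⟩ := h (η / (4 * (N + 1))) (by positivity)
  filter_upwards [eventually_ge_atTop (T₁ + H), eventually_ge_atTop (4 + 2 * H),
    BS.ev_log ((θ + η) * (H + 1) / (η / 2))] with T h1 h2 h3
  have hT0 : 0 < T := by linarith
  have hΛ0 : 0 ≤ Real.log T := Real.log_nonneg (by linarith)
  set ε : ℝ := η / (4 * (N + 1)) with hε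
  have hN0 : (0:ℝ) ≤ N := Nat.cast_nonneg _
  have hε1 : ε ≤ η / 4 := by
    rw [hε]
    apply div_le_div_of_nonneg_left hη.le (by norm_num)
    linarith
  have hε0 : 0 < ε := by positivity
  have hlog : ∀ k : ℕ, k ≤ N → 1 ≤ T - H + k ∧ Real.log (T - H + k) ≤ Real.log T + (H + 1) := by
    intro k hk
    have hk0 : (0:ℝ) ≤ k := Nat.cast_nonneg _
    have hkN : (k : ℝ) ≤ N := Nat.cast_le.2 hk
    refine ⟨by linarith, ?_⟩
    have e1 : T - H + k ≤ T * Real.exp (H + 1) := by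
      have e2 : 1 + (H + 1) ≤ Real.exp (H + 1) := by linarith [Real.add_one_le_exp (H + 1)]
      have e3 : T * (1 + (H + 1)) ≤ T * Real.exp (H + 1) := mul_le_mul_of_nonneg_left e2 hT0.le
      have e4 : T * (1 + (H + 1)) = T + T * (H + 1) := by ring
      have e5 : 1 * (H + 1) ≤ T * (H + 1) := mul_le_mul_of_nonneg_right (by linarith) (by linarith)
      linarith
    have e6 := Real.log_le_log (by linarith : 0 < T - H + k) e1
    rw [Real.log_mul hT0.ne' (Real.exp_pos _).ne', Real.log_exp] at e6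
    exact e6
  have hkey : ∀ k : ℕ, k ≤ N → ∫⁻ t in Icc (T - H + k) (T - H + k + 1),
      ENNReal.ofReal (Dc σ t - (θ + η) * Real.log T) ≤ ENNReal.ofReal (ε * (2 * Real.log T)) := by
    intro k hk
    obtain ⟨h4, h5⟩ := hlog k hk
    have hk0 : (0:ℝ) ≤ k := Nat.cast_nonneg _
    have h6 := hT₁ (T - H + k) (by linarith)
    have hH1 : H + 1 ≤ Real.log T := by
      rw [div_le_iff₀ (by positivity)] at h3
      have : (η) * (H + 1) ≤ (θ + η) * (H + 1) := mul_le_mul_of_nonneg_right (by linarith) (by linarith)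
      have h7 : η * (H + 1) ≤ η * (Real.log T / 2) := by linarith
      have h8 := le_of_mul_le_mul_left h7 hη
      linarith
    have h3' : (θ + η) * (H + 1) ≤ η / 2 * Real.log T := by
      rw [div_le_iff₀ (by positivity)] at h3
      linarith
    have h7 : (θ + ε) * Real.log (T - H + k) ≤ (θ + η) * Real.log T := by
      calc (θ + ε) * Real.log (T - H + k) ≤ (θ + ε) * (Real.log T + (H + 1)) := by
            apply mul_le_mul_of_nonneg_left h5 (by positivity)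
        _ = (θ + ε) * Real.log T + (θ + ε) * (H + 1) := by ring
        _ ≤ (θ + ε) * Real.log T + (θ + η) * (H + 1) := by
            have : (θ + ε) * (H + 1) ≤ (θ + η) * (H + 1) :=
              mul_le_mul_of_nonneg_right (by linarith) (by linarith)
            linarith
        _ ≤ (θ + η / 4) * Real.log T + η / 2 * Real.log T := by
            have : (θ + ε) * Real.log T ≤ (θ + η / 4) * Real.log T :=
              mul_le_mul_of_nonneg_right (by linarith) hΛ0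
            linarith
        _ ≤ (θ + η) * Real.log T := by
            have : 0 ≤ η / 4 * Real.log T := by positivity
            linarith
    calc ∫⁻ t in Icc (T - H + k) (T - H + k + 1), ENNReal.ofReal (Dc σ t - (θ + η) * Real.log T)
        ≤ ∫⁻ t in Icc (T - H + k) (T - H + k + 1), ENNReal.ofReal (Dc σ t - (θ + ε) * Real.log (T - H + k)) := by
          apply lintegral_mono
          intro t
          apply ENNReal.ofReal_le_ofReal
          linarith
      _ ≤ ENNReal.ofReal (ε * Real.log (T - H + k)) := h6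
      _ ≤ ENNReal.ofReal (ε * (2 * Real.log T)) := by
          apply ENNReal.ofReal_le_ofReal
          apply mul_le_mul_of_nonneg_left _ hε0.le
          linarith
  have hfin := lint_cover (fun t => ENNReal.ofReal (Dc σ t - (θ + η) * Real.log T)) (T - H) N hkey
  calc ∫⁻ t in Icc (T - H) (T + H), ENNReal.ofReal (Dc σ t - (θ + η) * Real.log T)
      ≤ ∫⁻ t in Icc (T - H) (T - H + N), ENNReal.ofReal (Dc σ t - (θ + η) * Real.log T) :=
        lintegral_mono_set (Icc_subset_Icc_right (by linarith))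
    _ ≤ (N + 1 : ℕ) * ENNReal.ofReal (ε * (2 * Real.log T)) := hfin
    _ = ENNReal.ofReal ((N + 1 : ℕ) * (ε * (2 * Real.log T))) := by
        rw [ENNReal.ofReal_mul (Nat.cast_nonneg _), ENNReal.ofReal_natCast]
    _ ≤ ENNReal.ofReal (η * Real.log T) := by
        apply ENNReal.ofReal_le_ofReal
        push_cast
        have e : ((N : ℝ) + 1) * (ε * (2 * Real.log T)) = η * Real.log T / 2 := by
          rw [hε]
          field_simp
          ring
        rw [e]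
        have : 0 ≤ η * Real.log T := by positivity
        linarith

theorem Gr_of_Fa {σ₀ σ θ : ℝ} (h0 : 1 / 2 ≤ σ₀) (h1 : σ₀ < σ) (h2 : σ ≤ 1) (hθ : 0 ≤ θ) (h : Fa σ₀ θ) :
    Gr σ (θ * (1 - σ)) := by
  intro ε hε
  obtain ⟨η, H, hη, hH, hev⟩ := local_law h0 h1 h2 hθ hε
  obtain ⟨T₁, hT₁⟩ := eventually_atTop.1 (hev.and (Fa_window hθ hη hH h))
  exact ⟨T₁, fun T hT => (hT₁ T hT).1 (hT₁ T hT).2⟩

lemma Gr_window {σ κ H : ℝ} (hκ : 0 < κ) (hH : 0 < H) (h : Gr σ 0) :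
    ∀ᶠ T : ℝ in atTop, ∀ t : ℝ, |t - T| ≤ H → ‖riemannZeta ⟨σ, t⟩‖ ≤ T ^ κ := by
  obtain ⟨T₁, hT₁⟩ := h (κ / 2) (by positivity)
  filter_upwards [eventually_ge_atTop (H + 1), eventually_ge_atTop (T₁ + H),
    BS.ev_rpow (2 ^ (κ / 2)) (p := κ / 2) (by positivity)] with T h1 h2 h3 t ht
  have ht' := abs_le.1 ht
  have hT0 : 0 < T := by linarith
  refine (hT₁ t (by linarith)).trans ?_
  rw [zero_add]
  calc t ^ (κ / 2) ≤ (2 * T) ^ (κ / 2) := Real.rpow_le_rpow (by linarith) (by linarith) (by positivity)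
    _ = 2 ^ (κ / 2) * T ^ (κ / 2) := Real.mul_rpow (by norm_num) hT0.le
    _ ≤ T ^ (κ / 2) * T ^ (κ / 2) := by gcongr
    _ = T ^ κ := by rw [← Real.rpow_add hT0]; congr 1; ring

theorem Fl_of_Gr {σ₀ σ : ℝ} (h0 : 1 / 2 ≤ σ₀) (h1 : σ₀ < σ) (h2 : σ ≤ 1) (h : Gr σ₀ 0) : Fl σ := by
  intro ε hε
  obtain ⟨κ, H, hκ, hH, hev⟩ := flat_of_small (σ₀ := σ₀) (δ := σ - σ₀) (ε := ε) (B := 1) h0 (by linarith)
    (by linarith) hε
  obtain ⟨T₁, hT₁⟩ := eventually_atTop.1 (hev.and (Gr_window hκ hH h))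
  exact ⟨T₁, fun T hT => (hT₁ T hT).1 (hT₁ T hT).2 σ (by linarith) h2⟩

theorem Fa_of_Fl {σ : ℝ} (h : Fl σ) : Fa σ 0 := by
  intro ε hε
  obtain ⟨T₁, hT₁⟩ := h ε hε
  refine ⟨max T₁ 1, fun T hT => ?_⟩
  have hΛ0 : 0 ≤ Real.log T := Real.log_nonneg ((le_max_right _ _).trans hT)
  refine le_trans (lintegral_mono fun t => ENNReal.ofReal_le_ofReal ?_) (hT₁ T ((le_max_left _ _).trans hT))
  have h1 := le_abs_self (Dc σ t)
  have h2 : 0 ≤ (0 + ε) * Real.log T := by rw [zero_add]; positivity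
  linarith

/-- the criterion in a half plane -/
theorem crit_flat {σ₀ : ℝ} (h0 : 1 / 2 ≤ σ₀) :
    (∀ σ : ℝ, σ₀ < σ → σ ≤ 1 → Gr σ 0) ↔ ∀ σ : ℝ, σ₀ < σ → σ ≤ 1 → Fl σ := by
  constructor
  · intro h σ h1 h2
    exact Fl_of_Gr (σ₀ := (σ₀ + σ) / 2) (by linarith) (by linarith) h2 (h _ (by linarith) (by linarith))
  · intro h σ h1 h2
    have h3 := Gr_of_Fa (σ₀ := (σ₀ + σ) / 2) (σ := σ) (by linarith) (by linarith) h2 le_rfl
      (Fa_of_Fl (h _ (by linarith) (by linarith)))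
    rwa [zero_mul] at h3

theorem crit_fall {σ₀ : ℝ} (h0 : 1 / 2 ≤ σ₀) (h01 : σ₀ < 1) :
    (∀ σ : ℝ, σ₀ < σ → σ ≤ 1 → Gr σ 0) ↔ ∀ δ : ℝ, 0 < δ → ∃ σ : ℝ, σ₀ < σ ∧ σ < σ₀ + δ ∧ Fa σ 0 := by
  constructor
  · intro h δ hδ
    have h1 := (crit_flat h0).1 h
    have h2 : 0 < min δ (1 - σ₀) := lt_min hδ (by linarith)
    have h3 := min_le_left δ (1 - σ₀)
    have h4 := min_le_right δ (1 - σ₀)
    refine ⟨σ₀ + min δ (1 - σ₀) / 2, by linarith, by linarith, Fa_of_Fl (h1 _ (by linarith) (by linarith))⟩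
  · intro h σ h1 h2
    obtain ⟨σ₁, h3, h4, h5⟩ := h (σ - σ₀) (by linarith)
    have h6 := Gr_of_Fa (σ₀ := σ₁) (σ := σ) (by linarith) (by linarith) h2 le_rfl h5
    rwa [zero_mul] at h6

/-- the Lindelof hypothesis and the bounds to the right of the critical line -/
theorem crit_LH : Pool.Agent.TH804.MS.Exponent 0 ↔ ∀ σ : ℝ, 1 / 2 < σ → σ ≤ 1 → Gr σ 0 := by
  constructor
  · intro h σ h1 h2 ε hε
    have hm : 0 < min (ε / 2) 1 := lt_min (by positivity) one_pos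
    obtain ⟨H, T₁, hVH, hT₁4, hsm⟩ := right_small (σ₀ := 1 / 2) (κ := min (ε / 2) 1) (V := 0) le_rfl (by norm_num)
      hm (min_le_right _ _) le_rfl
    have hLH : ∀ᶠ T : ℝ in atTop, ∀ t : ℝ, |t - T| ≤ H + 1 → ‖riemannZeta ⟨1 / 2, t⟩‖ ≤ T ^ (min (ε / 2) 1) := by
      obtain ⟨C, hC⟩ := h (min (ε / 2) 1 / 2) (by positivity)
      set κ := min (ε / 2) 1 with hκ
      filter_upwards [eventually_ge_atTop (H + 2), BS.ev_rpow (|C| * 4 ^ (κ / 2)) (p := κ / 2) (by positivity)]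
        with T h1 h2 t ht
      have ht' := abs_le.1 ht
      have hT0 : 0 < T := by linarith
      have eZ : ‖riemannZeta ⟨1 / 2, t⟩‖ = Pool.Agent.TH804.MS.Z t := by
        unfold Pool.Agent.TH804.MS.Z
        congr 2
        apply Complex.ext <;> simp
      rw [eZ]
      refine (hC t).trans ?_
      rw [zero_add]
      have h3 : 1 + |t| ≤ 4 * T := by
        rw [abs_of_nonneg (by linarith)]; linarith
      have h4 : (1 + |t|) ^ (κ / 2) ≤ 4 ^ (κ / 2) * T ^ (κ / 2) := by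
        rw [← Real.mul_rpow (by norm_num) hT0.le]
        exact Real.rpow_le_rpow (by positivity) h3 (by positivity)
      have h5 : 0 ≤ (1 + |t|) ^ (κ / 2) := by positivity
      calc C * (1 + |t|) ^ (κ / 2) ≤ |C| * (1 + |t|) ^ (κ / 2) := by
            apply mul_le_mul_of_nonneg_right (le_abs_self C) h5
        _ ≤ |C| * (4 ^ (κ / 2) * T ^ (κ / 2)) := by gcongr
        _ = |C| * 4 ^ (κ / 2) * T ^ (κ / 2) := by ring
        _ ≤ T ^ (κ / 2) * T ^ (κ / 2) := by gcongr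
        _ = T ^ κ := by rw [← Real.rpow_add hT0]; congr 1; ring
    obtain ⟨T₂, hT₂⟩ := eventually_atTop.1 hLH
    refine ⟨max T₁ T₂, fun T hT => ?_⟩
    have hTT₁ : T₁ ≤ T := (le_max_left _ _).trans hT
    have h3 := hsm T hTT₁ (fun t ht => hT₂ T ((le_max_right _ _).trans hT) t (by linarith))
      ⟨σ, T⟩ (by show 1 / 2 ≤ σ; linarith) (by show |T - T| ≤ 0; simp)
    refine h3.trans ?_
    apply Real.rpow_le_rpow_of_exponent_le (by linarith)
    have := min_le_left (ε / 2) 1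
    linarith
  · intro h
    apply Pool.Agent.TH804.MS.exponent_of_large le_rfl
    intro ε hε
    obtain ⟨C, hC1, hC⟩ := BS.three_lines
    set y : ℝ := min (1 / 20) (ε / 4) with hy
    have hy0 : 0 < y := lt_min (by norm_num) (by positivity)
    have hy1 : y ≤ 1 / 20 := min_le_left _ _
    have hy2 : y ≤ ε / 4 := min_le_right _ _
    have hg := Gr_window (σ := 1 / 2 + y) (κ := ε / 4) (H := 1) (by positivity) one_pos
      (h _ (by linarith) (by linarith))
    obtain ⟨T₁, hT₁⟩ := eventually_atTop.1 ((hg.and (BS.ev_rpow C (p := ε / 4) (by positivity))).and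
      (eventually_ge_atTop 4))
    refine ⟨T₁, fun T hT => ?_⟩
    obtain ⟨⟨h1, h2⟩, h3⟩ := hT₁ T hT
    have hT0 : 0 < T := by linarith
    have hT1 : 1 ≤ T := by linarith
    have h4 := hC y T (T ^ (ε / 4)) hy0 hy1 h3 (Real.one_le_rpow hT1 (by positivity)) h1
    have eZ : ‖riemannZeta ⟨1 / 2, T⟩‖ = Pool.Agent.TH804.MS.Z T := by
      unfold Pool.Agent.TH804.MS.Z
      congr 2
      apply Complex.ext <;> simp
    rw [← eZ, zero_add]
    refine h4.trans ?_
    have h5 : T ^ (3 / 5 * y) ≤ T ^ (ε / 4) := by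
      apply Real.rpow_le_rpow_of_exponent_le hT1
      linarith
    calc C * T ^ (3 / 5 * y) * T ^ (ε / 4) ≤ T ^ (ε / 4) * T ^ (ε / 4) * T ^ (ε / 4) := by gcongr
      _ = T ^ (ε / 4 + ε / 4 + ε / 4) := by rw [Real.rpow_add hT0, Real.rpow_add hT0]
      _ ≤ T ^ ε := by
          apply Real.rpow_le_rpow_of_exponent_le hT1
          linarith

end Pool.Agent.V7H88.NM
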